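import Pool.Graph.R_seed8.Y495.KP.Gl

/-!
# The equivariant Kuiper argument in closed *-algebras of operators with vanishing entries
-/

set_option autoImplicit false

namespace Pool.Agent.KS6_61.EK

open Pool.Agent.Helper110.Kuiper Filter Topology Set
open scoped ENNReal

noncomputable section

section Frames

variable {W : ℕ → Type} [∀ a, NormedAddCommGroup (W a)] [∀ a, InnerProductSpace ℂ (W a)]
variable [∀ a, CompleteSpace (W a)]

/-- The properties of the algebras of operators for which the argument works. -/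
structure GoodAlg (𝔅 : StarSubalgebra ℂ (KK W →L[ℂ] KK W)) : Prop where
  closed : IsClosed (𝔅 : Set (KK W →L[ℂ] KK W))
  sOp_mem : ∀ φ h, sOp φ h ∈ 𝔅
  rho_mem : ∀ x ∈ 𝔅, rho x ∈ 𝔅
  vanish : ∀ T ∈ 𝔅, ∀ (j : ℕ × ℕ) (a : ℕ), Tendsto (fun n : ℕ => ent T (a, n) j) atTop (𝓝 0)

lemma GoodAlg.tOp_mem {𝔅 : StarSubalgebra ℂ (KK W →L[ℂ] KK W)} (h𝔅 : GoodAlg 𝔅) (φ : ℕ → ℕ → ℕ)
    (h : ∀ a, Function.Injective (φ a)) : tOp φ h ∈ 𝔅 := by
  rw [← adjoint_sOp]
  exact star_mem (h𝔅.sOp_mem φ h)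

lemma ent_adj (T : KK W →L[ℂ] KK W) (k j : ℕ × ℕ) :
    ent T k j = ent (ContinuousLinearMap.adjoint T) j k := by
  have h : ContinuousLinearMap.adjoint (entOp T k j) = entOp (ContinuousLinearMap.adjoint T) j k := by
    symm
    rw [ContinuousLinearMap.eq_adjoint_iff]
    intro x y
    rw [entOp_apply, entOp_apply]
    have e1 : inner ℂ ((ContinuousLinearMap.adjoint T) (lp.single 2 k x) j) y
        = inner ℂ ((ContinuousLinearMap.adjoint T) (lp.single 2 k x)) (lp.single 2 j y : KK W) :=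
      (lp.inner_single_right (𝕜 := ℂ) (G := fun j : ℕ × ℕ => W j.1) j y _).symm
    have e2 : inner ℂ x ((T (lp.single 2 j y)) k) = inner ℂ (lp.single 2 k x : KK W) (T (lp.single 2 j y)) :=
      (lp.inner_single_left (𝕜 := ℂ) (G := fun j : ℕ × ℕ => W j.1) k x _).symm
    rw [e1, e2, ContinuousLinearMap.adjoint_inner_left]
  rw [ent, ent, ← h, enorm_eq_iff_norm_eq]
  exact (LinearIsometryEquiv.norm_map ContinuousLinearMap.adjoint _).symm

lemma GoodAlg.vanish' {𝔅 : StarSubalgebra ℂ (KK W →L[ℂ] KK W)} (h𝔅 : GoodAlg 𝔅)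
    (T : KK W →L[ℂ] KK W) (hT : T ∈ 𝔅) (j : ℕ × ℕ) (a : ℕ) :
    Tendsto (fun n : ℕ => ent T j (a, n)) atTop (𝓝 0) := by
  refine (h𝔅.vanish (star T) (star_mem hT) j a).congr fun n => ?_
  rw [ent_adj T]
  rfl

theorem exists_frame' {𝔅 : StarSubalgebra ℂ (KK W →L[ℂ] KK W)} (h𝔅 : GoodAlg 𝔅) {I : Type*}
    [DecidableEq I] (T : I → (KK W →L[ℂ] KK W)) (hT : ∀ i, T i ∈ 𝔅) (ε : ℝ≥0∞)
    (hε : 0 < ε) (hε1 : ε < 1) :
    ∃ f : Frame I, ∀ τ σ, τ ⊆ σ → ∀ i ∈ τ,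
      ‖tOp (f.φ' τ) (f.inj' τ) * (T i * sOp (f.φ σ) (f.inj σ))‖ₑ ≤ ε * (4⁻¹) ^ σ.card ∧
      ‖tOp (f.φ' σ) (f.inj' σ) * (T i * sOp (f.φ τ) (f.inj τ))‖ₑ ≤ ε * (4⁻¹) ^ σ.card := by
  classical
  obtain ⟨B, hB⟩ := exists_family (fun i => ent (T i)) (fun i j a => h𝔅.vanish (T i) (hT i) j a)
    (fun i j a => h𝔅.vanish' (T i) (hT i) j a) ε hε hε1
  let en : ∀ (σ : Finset I) (a : ℕ), ℕ ↪ {n | (a, n) ∈ B σ} := fun σ a =>
    Set.Infinite.natEmbedding _ ((hB σ).1 a)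
  let φ : Finset I → ℕ → ℕ → ℕ := fun σ a n => (en σ a (2 * n) : ℕ)
  let φ' : Finset I → ℕ → ℕ → ℕ := fun σ a n => (en σ a (2 * n + 1) : ℕ)
  have hφ : ∀ σ a, Function.Injective (φ σ a) := by
    intro σ a m n h
    have h1 : en σ a (2 * m) = en σ a (2 * n) := Subtype.ext h
    have h2 := (en σ a).injective h1
    omega
  have hφ' : ∀ σ a, Function.Injective (φ' σ a) := by
    intro σ a m n h
    have h1 : en σ a (2 * m + 1) = en σ a (2 * n + 1) := Subtype.ext h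
    have h2 := (en σ a).injective h1
    omega
  have hr : ∀ σ, Set.range (idx (φ σ)) ⊆ B σ := by
    rintro σ _ ⟨⟨a, n⟩, rfl⟩
    exact (en σ a (2 * n)).2
  have hr' : ∀ σ, Set.range (idx (φ' σ)) ⊆ B σ := by
    rintro σ _ ⟨⟨a, n⟩, rfl⟩
    exact (en σ a (2 * n + 1)).2
  have hself : ∀ σ, Disjoint (Set.range (idx (φ σ))) (Set.range (idx (φ' σ))) := by
    intro σ
    rw [Set.disjoint_left]
    rintro _ ⟨⟨a, n⟩, rfl⟩ ⟨⟨b, m⟩, h⟩
    simp only [idx, Prod.mk.injEq] at h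
    obtain ⟨rfl, h⟩ := h
    have h1 : en σ b (2 * m + 1) = en σ b (2 * n) := Subtype.ext h
    have h2 := (en σ b).injective h1
    omega
  refine ⟨⟨φ, φ', hφ, hφ', hself,
    fun τ σ h => ((hB σ).2.2 τ h).1.mono (hr τ) (hr σ),
    fun τ σ h => ((hB σ).2.2 τ h).1.mono (hr' τ) (hr' σ),
    fun τ σ h => ((hB σ).2.2 τ h).1.mono (hr τ) (hr' σ),
    fun τ σ h => ((hB σ).2.2 τ h).1.mono (hr' τ) (hr σ)⟩, ?_⟩
  intro τ σ hτσ i hi
  show ‖tOp (φ' τ) (hφ' τ) * (T i * sOp (φ σ) (hφ σ))‖ₑ ≤ _ ∧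
    ‖tOp (φ' σ) (hφ' σ) * (T i * sOp (φ τ) (hφ τ))‖ₑ ≤ _
  rcases hτσ.eq_or_ssubset with rfl | hss
  · have h1 : ‖tOp (φ' τ) (hφ' τ) * (T i * sOp (φ τ) (hφ τ))‖ₑ ≤ ε * (4⁻¹) ^ τ.card := by
      refine (corner_le (T i) (φ' τ) (φ τ) (hφ' τ) (hφ τ) _ _ subset_rfl subset_rfl).trans ?_
      refine le_trans ?_ ((hB τ).2.1 i hi)
      calc ∑' k : Set.range (idx (φ' τ)), ∑' j : Set.range (idx (φ τ)), ent (T i) k j
          = ∑' k : Set.range (idx (φ' τ)), ∑' j : Set.range (idx (φ τ)),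
              (fun k j : ℕ × ℕ => if k = j then 0 else ent (T i) k j) k j := by
            refine tsum_congr fun k => tsum_congr fun j => ?_
            have : (k : ℕ × ℕ) ≠ j := by
              intro h
              exact Set.disjoint_left.1 (hself τ) j.2 (h ▸ k.2)
            simp only [this, if_false]
        _ ≤ ∑' k : Set.range (idx (φ' τ)), ∑' j : B τ,
              (fun k j : ℕ × ℕ => if k = j then 0 else ent (T i) k j) k j :=
            ENNReal.tsum_le_tsum fun k => ENNReal.tsum_mono_subtype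
              (fun j : ℕ × ℕ => if (k : ℕ × ℕ) = j then 0 else ent (T i) k j) (hr τ)
        _ ≤ ∑' k : B τ, ∑' j : B τ,
              (fun k j : ℕ × ℕ => if k = j then 0 else ent (T i) k j) k j :=
            ENNReal.tsum_mono_subtype (fun k : ℕ × ℕ => ∑' j : B τ,
              (if k = (j : ℕ × ℕ) then 0 else ent (T i) k j)) (hr' τ)
    exact ⟨h1, h1⟩
  · have h2 := ((hB σ).2.2 τ hss).2 i hi
    exact ⟨(corner_le (T i) (φ' τ) (φ σ) (hφ' τ) (hφ σ) _ _ (hr' τ) (hr σ)).trans h2.1,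
      (corner_le (T i) (φ' σ) (φ τ) (hφ' σ) (hφ τ) _ _ (hr' σ) (hr τ)).trans h2.2⟩

end Frames

section Action

variable {W : ℕ → Type} [∀ a, NormedAddCommGroup (W a)] [∀ a, InnerProductSpace ℂ (W a)]
variable [∀ a, CompleteSpace (W a)] {Γ : Type} [Group Γ]

/-- The unitary group of the algebra. -/
abbrev UU (𝔅 : StarSubalgebra ℂ (KK W →L[ℂ] KK W)) : Type :=
  {u : unitary (KK W →L[ℂ] KK W) // (u : KK W →L[ℂ] KK W) ∈ 𝔅}

/-- The group acts on the algebra. -/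
def Inva (U : Γ →* GG W) (𝔅 : StarSubalgebra ℂ (KK W →L[ℂ] KK W)) : Prop :=
  ∀ g, ∀ x ∈ 𝔅, dg (U g) * x * dg (U g)⁻¹ ∈ 𝔅

variable {U : Γ →* GG W} {𝔅 : StarSubalgebra ℂ (KK W →L[ℂ] KK W)} (hU : Inva U 𝔅)

include hU in
lemma act_mem' (g : Γ) (u : UU 𝔅) : (act (U g) u.1 : KK W →L[ℂ] KK W) ∈ 𝔅 := by
  rw [act_coe]
  exact hU g _ u.2

/-- The action on the unitary group of the algebra. -/
def actB (hU : Inva U 𝔅) (g : Γ) (u : UU 𝔅) : UU 𝔅 := ⟨act (U g) u.1, act_mem' hU g u⟩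

lemma actB_one (u : UU 𝔅) : actB hU 1 u = u := Subtype.ext (by
  show act (U 1) u.1 = u.1
  rw [map_one, act_one])

lemma actB_mul (g h : Γ) (u : UU 𝔅) : actB hU (g * h) u = actB hU g (actB hU h u) :=
  Subtype.ext (by
    show act (U (g * h)) u.1 = act (U g) (act (U h) u.1)
    rw [map_mul, act_mul])

lemma actB_coe (g : Γ) (u : UU 𝔅) :
    ((actB hU g u).1 : KK W →L[ℂ] KK W) = dg (U g) * (u.1 : KK W →L[ℂ] KK W) * dg (U g)⁻¹ :=
  act_coe _ _

lemma actB_isometry (g : Γ) : Isometry (actB hU g) := by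
  refine Isometry.of_dist_eq fun u v => ?_
  exact (act_isometry (U g)).dist_eq u.1 v.1

/-- The inverse in the unitary group of the algebra. -/
def invB (u : UU 𝔅) : UU 𝔅 := ⟨u.1⁻¹, star_mem u.2⟩

/-- The ring of continuous equivariant maps. -/
def CB (hU : Inva U 𝔅) : Subring (UU 𝔅 → (KK W →L[ℂ] KK W)) where
  carrier := {c | Continuous c ∧ (∀ u, c u ∈ 𝔅) ∧
    ∀ (g : Γ) u, c (actB hU g u) = dg (U g) * c u * dg (U g)⁻¹}
  mul_mem' := by
    rintro c d ⟨hc, hcm, hc'⟩ ⟨hd, hdm, hd'⟩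
    refine ⟨hc.mul hd, fun u => mul_mem (hcm u) (hdm u), fun g u => ?_⟩
    have h1 : dg (U g)⁻¹ * dg (U g) = (1 : KK W →L[ℂ] KK W) := by
      rw [← dg_mul, inv_mul_cancel, dg_one]
    show c (actB hU g u) * d (actB hU g u) = dg (U g) * (c u * d u) * dg (U g)⁻¹
    rw [hc', hd']
    calc dg (U g) * c u * dg (U g)⁻¹ * (dg (U g) * d u * dg (U g)⁻¹)
        = dg (U g) * c u * (dg (U g)⁻¹ * dg (U g)) * (d u * dg (U g)⁻¹) := by
          simp only [mul_assoc]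
      _ = dg (U g) * (c u * d u) * dg (U g)⁻¹ := by rw [h1, mul_one]; simp only [mul_assoc]
  one_mem' := by
    refine ⟨continuous_const, fun u => one_mem _, fun g u => ?_⟩
    show 1 = dg (U g) * 1 * dg (U g)⁻¹
    rw [mul_one, ← dg_mul, mul_inv_cancel, dg_one]
  add_mem' := by
    rintro c d ⟨hc, hcm, hc'⟩ ⟨hd, hdm, hd'⟩
    refine ⟨hc.add hd, fun u => add_mem (hcm u) (hdm u), fun g u => ?_⟩
    show c (actB hU g u) + d (actB hU g u) = dg (U g) * (c u + d u) * dg (U g)⁻¹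
    rw [hc', hd', mul_add, add_mul]
  zero_mem' := by
    refine ⟨continuous_const, fun u => zero_mem _, fun g u => ?_⟩
    show 0 = dg (U g) * 0 * dg (U g)⁻¹
    rw [mul_zero, zero_mul]
  neg_mem' := by
    rintro c ⟨hc, hcm, hc'⟩
    refine ⟨hc.neg, fun u => neg_mem (hcm u), fun g u => ?_⟩
    show -c (actB hU g u) = dg (U g) * (-c u) * dg (U g)⁻¹
    rw [hc', mul_neg, neg_mul]

/-- Constants in the ring. -/
def cstB (hU : Inva U 𝔅) (T : KK W →L[ℂ] KK W) (hT : T ∈ 𝔅)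
    (h : ∀ A : GG W, dg A * T = T * dg A) : CB hU :=
  ⟨fun _ => T, continuous_const, fun _ => hT, fun g _ => by
    rw [h, mul_assoc, ← dg_mul, mul_inv_cancel, dg_one, mul_one]⟩

/-- The amplification on the ring. -/
def rhoB (hU : Inva U 𝔅) (h𝔅 : GoodAlg 𝔅) : CB hU →+* CB hU where
  toFun c := ⟨fun u => rho (c.1 u), rho_continuous.comp c.2.1, fun u => h𝔅.rho_mem _ (c.2.2.1 u),
    fun g u => by
      show rho (c.1 (actB hU g u)) = dg (U g) * rho (c.1 u) * dg (U g)⁻¹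
      rw [c.2.2.2 g u, map_mul, map_mul, rho_dg, rho_dg]⟩
  map_one' := by
    apply Subtype.ext
    funext u
    exact map_one rho
  map_mul' c d := by
    apply Subtype.ext
    funext u
    exact map_mul rho _ _
  map_zero' := by
    apply Subtype.ext
    funext u
    exact map_zero rho
  map_add' c d := by
    apply Subtype.ext
    funext u
    exact map_add rho _ _

/-- The identity map. -/
def idB (hU : Inva U 𝔅) : CB hU :=
  ⟨fun u => (u.1 : KK W →L[ℂ] KK W), continuous_subtype_val.comp continuous_subtype_val,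
    fun u => u.2, fun g u => actB_coe hU g u⟩

/-- The inverse map. -/
def invCB (hU : Inva U 𝔅) : CB hU :=
  ⟨fun u => ((u.1⁻¹ : unitary (KK W →L[ℂ] KK W)) : KK W →L[ℂ] KK W),
    continuous_subtype_val.comp (continuous_inv.comp continuous_subtype_val),
    fun u => (invB u).2, fun g u => by
      show ((act (U g) u.1)⁻¹ : unitary (KK W →L[ℂ] KK W)).1 =
        dg (U g) * (u.1⁻¹ : unitary (KK W →L[ℂ] KK W)).1 * dg (U g)⁻¹
      rw [act_inv, act_coe]⟩

/-- Combinations in the ring. -/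
def combB (hU : Inva U 𝔅) (w : Weights (UU 𝔅) (UU 𝔅))
    (hw : ∀ (g : Γ) u τ, w.x τ (actB hU g u) = w.x τ u)
    (op : Finset (UU 𝔅) → (KK W →L[ℂ] KK W)) (hop : ∀ τ, op τ ∈ 𝔅)
    (h : ∀ (A : GG W) τ, dg A * op τ = op τ * dg A) : CB hU :=
  ⟨comb w op, comb_continuous w op, fun u => by
    rw [comb_eq]
    exact sum_mem fun τ _ => SMulMemClass.smul_mem _ (hop τ), fun g u => by
    have h1 : comb w op (actB hU g u) = comb w op u := by
      unfold comb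
      simp_rw [hw]
    rw [h1, comb_comm w op u _ (h (U g)), mul_assoc, ← dg_mul, mul_inv_cancel, dg_one, mul_one]⟩

lemma inverse_mem (h𝔅 : GoodAlg 𝔅) {x : KK W →L[ℂ] KK W} (hx : x ∈ 𝔅) (hu : IsUnit x) :
    Ring.inverse x ∈ 𝔅 := by
  have : IsClosed (𝔅 : Set (KK W →L[ℂ] KK W)) := h𝔅.closed
  have h1 : IsUnit (⟨x, hx⟩ : 𝔅) := (StarSubalgebra.coe_isUnit 𝔅).1 hu
  obtain ⟨y, hxy, hyx⟩ := isUnit_iff_exists.1 h1
  have h2 : x * (y : KK W →L[ℂ] KK W) = 1 := congrArg Subtype.val hxy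
  have h3 : Ring.inverse x = y := by
    calc Ring.inverse x = Ring.inverse x * (x * (y : KK W →L[ℂ] KK W)) := by rw [h2, mul_one]
      _ = y := by rw [← mul_assoc, Ring.inverse_mul_cancel _ hu, one_mul]
  rw [h3]
  exact y.2

/-- The inverse of `1 - c` in the ring. -/
def invSubB (h𝔅 : GoodAlg 𝔅) (c : CB hU) (h : ∀ u, ‖c.1 u‖ < 1) : CB hU :=
  ⟨fun u => Ring.inverse (1 - c.1 u), by
    rw [continuous_iff_continuousAt]
    intro u
    obtain ⟨x, hx⟩ := isUnit_one_sub_of_norm_lt_one (h u)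
    have h1 : ContinuousAt Ring.inverse (1 - c.1 u) := by
      rw [← hx]
      exact NormedRing.inverse_continuousAt x
    exact ContinuousAt.comp (f := fun u => 1 - c.1 u) h1 (continuous_const.sub c.2.1).continuousAt,
  fun u => inverse_mem h𝔅 (sub_mem (one_mem _) (c.2.2.1 u)) (isUnit_one_sub_of_norm_lt_one (h u)),
  fun g u => by
    show Ring.inverse (1 - c.1 (actB hU g u)) = dg (U g) * Ring.inverse (1 - c.1 u) * dg (U g)⁻¹
    have h1 : IsUnit (1 - c.1 u) := isUnit_one_sub_of_norm_lt_one (h u)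
    have h2 : IsUnit (1 - c.1 (actB hU g u)) := isUnit_one_sub_of_norm_lt_one (h (actB hU g u))
    have e1 : dg (U g)⁻¹ * dg (U g) = (1 : KK W →L[ℂ] KK W) := by
      rw [← dg_mul, inv_mul_cancel, dg_one]
    have e2 : dg (U g) * dg (U g)⁻¹ = (1 : KK W →L[ℂ] KK W) := by
      rw [← dg_mul, mul_inv_cancel, dg_one]
    have e3 : 1 - c.1 (actB hU g u) = dg (U g) * (1 - c.1 u) * dg (U g)⁻¹ := by
      rw [c.2.2.2 g u, mul_sub, sub_mul, mul_one, e2]
    have e4 : dg (U g) * Ring.inverse (1 - c.1 u) * dg (U g)⁻¹ * (1 - c.1 (actB hU g u)) = 1 := by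
      rw [e3]
      calc dg (U g) * Ring.inverse (1 - c.1 u) * dg (U g)⁻¹ * (dg (U g) * (1 - c.1 u) * dg (U g)⁻¹)
          = dg (U g) * Ring.inverse (1 - c.1 u) * (dg (U g)⁻¹ * dg (U g)) *
              ((1 - c.1 u) * dg (U g)⁻¹) := by
            simp only [mul_assoc]
        _ = dg (U g) * (Ring.inverse (1 - c.1 u) * (1 - c.1 u)) * dg (U g)⁻¹ := by
            rw [e1, mul_one]; simp only [mul_assoc]
        _ = 1 := by rw [Ring.inverse_mul_cancel _ h1, mul_one, e2]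
    calc Ring.inverse (1 - c.1 (actB hU g u))
        = (dg (U g) * Ring.inverse (1 - c.1 u) * dg (U g)⁻¹ * (1 - c.1 (actB hU g u))) *
            Ring.inverse (1 - c.1 (actB hU g u)) := by rw [e4, one_mul]
      _ = _ := by rw [mul_assoc, Ring.mul_inverse_cancel _ h2, mul_one]⟩

lemma invSubB_mul (h𝔅 : GoodAlg 𝔅) (c : CB hU) (h : ∀ u, ‖c.1 u‖ < 1) :
    invSubB hU h𝔅 c h * (1 - c) = 1 := by
  apply Subtype.ext
  funext u
  exact Ring.inverse_mul_cancel _ (isUnit_one_sub_of_norm_lt_one (h u))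

lemma CB_ext {c d : CB hU} (h : ∀ u, c.1 u = d.1 u) : c = d := Subtype.ext (funext h)

end Action

end

end Pool.Agent.KS6_61.EK
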