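import Pool.Agent.KS6_61.EK.Mod
import Pool.Graph.R_seed8.Y495.KP.Rep

/-!
# The equivariant Kuiper theorem for the algebra of adjointable operators
-/

set_option autoImplicit false

namespace Pool.Agent.KS6_61.EK

open Pool.Agent.Helper110.Kuiper Pool.Agent.Y495.KP Filter Topology Set
open scoped ENNReal

noncomputable section

variable {W : ℕ → Type} [∀ a, NormedAddCommGroup (W a)] [∀ a, InnerProductSpace ℂ (W a)]
variable {𝓐 : ∀ a b, Set (W b →L[ℂ] W a)}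

/-- An isometry as a continuous linear map. -/
def iso {a : ℕ} (A : W a ≃ₗᵢ[ℂ] W a) : W a →L[ℂ] W a := A.toContinuousLinearEquiv

/-- Conjugation by the diagonal isometries. -/
def cjM (A : GG W) (b : ℕ) : (W b →L[ℂ] KK W) →L[ℂ] (W b →L[ℂ] KK W) :=
  (ContinuousLinearMap.compL ℂ (W b) (KK W) (KK W) (dg A)).comp
    ((ContinuousLinearMap.compL ℂ (W b) (W b) (KK W)).flip (iso (A⁻¹ b)))

lemma cjM_apply (A : GG W) (b : ℕ) (y : W b →L[ℂ] KK W) :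
    cjM A b y = (dg A).comp (y.comp (iso (A⁻¹ b))) := rfl

lemma dg_inc (A : GG W) (k : ℕ × ℕ) : (dg A).comp (inc k) = (inc k).comp (iso (A k.1)) := by
  ext1 v
  apply lp.ext
  funext j
  show A j.1 ((inc k v : KK W) j) = (inc k (A k.1 v) : KK W) j
  by_cases h : j = k
  · subst h
    rw [inc_self, inc_self]
  · rw [inc_ne h, inc_ne h, map_zero]

lemma cjM_mem (A : GG W)
    (hA : ∀ a b, ∀ x ∈ 𝓐 a b, (iso (A a)).comp (x.comp (iso (A⁻¹ b))) ∈ 𝓐 a b) (b : ℕ) :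
    ∀ y ∈ Hmod 𝓐 b, cjM A b y ∈ Hmod 𝓐 b := by
  refine Hmod_map _ fun k x hx => ?_
  have h : cjM A b ((inc k).comp x) = (inc k).comp ((iso (A k.1)).comp (x.comp (iso (A⁻¹ b)))) := by
    rw [cjM_apply]
    calc (dg A).comp (((inc k).comp x).comp (iso (A⁻¹ b)))
        = ((dg A).comp (inc k)).comp (x.comp (iso (A⁻¹ b))) := rfl
      _ = _ := by rw [dg_inc]; rfl
  rw [h]
  exact gen_mem k (hA _ _ x hx)

variable [∀ a, CompleteSpace (W a)]

lemma conj_half (A : GG W)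
    (hA : ∀ a b, ∀ x ∈ 𝓐 a b, (iso (A a)).comp (x.comp (iso (A⁻¹ b))) ∈ 𝓐 a b)
    (hA' : ∀ a b, ∀ x ∈ 𝓐 a b, (iso (A⁻¹ a)).comp (x.comp (iso (A⁻¹⁻¹ b))) ∈ 𝓐 a b)
    (T : KK W →L[ℂ] KK W) (hT : ∀ b, ∀ y ∈ Hmod 𝓐 b, T.comp y ∈ Hmod 𝓐 b) (b : ℕ)
    (y : W b →L[ℂ] KK W) (hy : y ∈ Hmod 𝓐 b) :
    (dg A * T * dg A⁻¹).comp y ∈ Hmod 𝓐 b := by
  have h1 : cjM A⁻¹ b y ∈ Hmod 𝓐 b := cjM_mem A⁻¹ hA' b y hy
  have h2 := cjM_mem A hA b _ (hT b _ h1)
  have h3 : cjM A b (T.comp (cjM A⁻¹ b y)) = (dg A * T * dg A⁻¹).comp y := by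
    ext1 v
    show dg A (T (dg A⁻¹ (y (A⁻¹⁻¹ b (A⁻¹ b v))))) = dg A (T (dg A⁻¹ (y v)))
    have h4 : A⁻¹⁻¹ b (A⁻¹ b v) = v := by
      have h5 : (A⁻¹⁻¹ * A⁻¹ : GG W) b v = v := by rw [inv_mul_cancel]; rfl
      exact h5
    rw [h4]
  rw [← h3]
  exact h2

lemma Inva_LA {Γ : Type} [Group Γ] (U : Γ →* GG W)
    (hU : ∀ g a b, ∀ x ∈ 𝓐 a b, (iso (U g a)).comp (x.comp (iso ((U g)⁻¹ b))) ∈ 𝓐 a b) :
    Inva U (LA 𝓐) := by
  intro g T hT b y hy
  have hU' : ∀ a b, ∀ x ∈ 𝓐 a b,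
      (iso ((U g)⁻¹ a)).comp (x.comp (iso ((U g)⁻¹⁻¹ b))) ∈ 𝓐 a b := by
    intro a b x hx
    have := hU g⁻¹ a b x hx
    rwa [map_inv] at this
  refine ⟨conj_half (U g) (hU g) hU' T (fun b y hy => (hT b y hy).1) b y hy, ?_⟩
  have h1 : star (dg (U g) * T * dg (U g)⁻¹) = dg (U g) * star T * dg (U g)⁻¹ := by
    rw [star_mul, star_mul, star_dg, star_dg, inv_inv]
    simp only [mul_assoc]
  rw [h1]
  exact conj_half (U g) (hU g) hU' (star T) (fun b y hy => (hT b y hy).2) b y hy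

/-- The main theorem for modules. -/
theorem contr_LA (hid : ∀ a, ContinuousLinearMap.id ℂ (W a) ∈ 𝓐 a a) {Γ : Type} [Group Γ]
    (U : Γ →* GG W)
    (hU : ∀ g a b, ∀ x ∈ 𝓐 a b, (iso (U g a)).comp (x.comp (iso ((U g)⁻¹ b))) ∈ 𝓐 a b)
    (c : ℝ≥0∞) (hc : 1 ≤ c) :
    EqContr (fun g T => dg (U g) * T * star (dg (U g))) (Inv (LA 𝓐 : Set (KK W →L[ℂ] KK W)) c) := by
  have hg := good_LA hid
  have hinv := Inva_LA U hU
  obtain ⟨h, h1, h2, h3, h4⟩ := kuiperB hinv hg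
  have hv : ∀ g, ∀ a ∈ LA 𝓐, ((DG (U g) : unitary (KK W →L[ℂ] KK W)) : KK W →L[ℂ] KK W) * a *
      star ((DG (U g) : unitary (KK W →L[ℂ] KK W)) : KK W →L[ℂ] KK W) ∈ LA 𝓐 := by
    intro g a ha
    rw [DG_coe, star_dg]
    exact hinv g a ha
  refine contr_glS (LA 𝓐) hg.closed (fun g => DG (U g)) hv h h1 h2 h3 ?_ c hc
  intro t g u
  have h5 := congrArg Subtype.val (h4 t g u)
  exact h5

section Meaning

/-- The projection onto finitely many summands. -/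
lemma part_norm (F : Finset (ℕ × ℕ)) {b : ℕ} (y : W b →L[ℂ] KK W) :
    ‖∑ k ∈ F, (inc k).comp ((crd k).comp y)‖ ≤ ‖y‖ := by
  refine ContinuousLinearMap.opNorm_le_bound _ (norm_nonneg y) fun v => ?_
  refine le_trans ?_ (y.le_opNorm v)
  refine norm_le_of_sq (norm_nonneg _) ?_
  rw [← (hasSum_sq (y v)).tsum_eq]
  refine (summable_sq _).tsum_le_tsum (fun j => ?_) (summable_sq (y v))
  have h1 : ((∑ k ∈ F, (inc k).comp ((crd k).comp y)) v : KK W) j = if j ∈ F then (y v) j else 0 := by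
    rw [sum_apply]
    have h2 : (∑ k ∈ F, ((inc k).comp ((crd k).comp y)) v : KK W) j =
        ∑ k ∈ F, (inc k ((y v) k) : KK W) j := by
      exact map_sum (crd j : KK W →L[ℂ] W j.1) _ _
    rw [h2]
    split_ifs with hj
    · rw [Finset.sum_eq_single_of_mem j hj, inc_self]
      intro k _ hk
      exact inc_ne hk.symm _
    · refine Finset.sum_eq_zero fun k hk => inc_ne ?_ _
      rintro rfl
      exact hj hk
  rw [h1]
  split_ifs
  · exact le_rfl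
  · rw [norm_zero, zero_pow two_ne_zero]
    exact sq_nonneg _

/-- A category of operators: closed linear spaces, stable under composition, with units. -/
structure Cat (𝓐 : ∀ a b, Set (W b →L[ℂ] W a)) : Prop where
  id_mem : ∀ a, ContinuousLinearMap.id ℂ (W a) ∈ 𝓐 a a
  comp_mem : ∀ a b c, ∀ x ∈ 𝓐 a b, ∀ y ∈ 𝓐 b c, x.comp y ∈ 𝓐 a c
  add_mem : ∀ a b, ∀ x ∈ 𝓐 a b, ∀ y ∈ 𝓐 a b, x + y ∈ 𝓐 a b
  smul_mem : ∀ a b, ∀ (c : ℂ), ∀ x ∈ 𝓐 a b, c • x ∈ 𝓐 a b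
  zero_mem : ∀ a b, 0 ∈ 𝓐 a b
  closed : ∀ a b, IsClosed (𝓐 a b)

lemma Hmod_ent (h𝓐 : Cat 𝓐) {b : ℕ} (y : W b →L[ℂ] KK W) (hy : y ∈ Hmod 𝓐 b) (k : ℕ × ℕ) :
    (crd k).comp y ∈ 𝓐 k.1 b := by
  let t : Submodule ℂ (W b →L[ℂ] KK W) :=
    { carrier := {y | (crd k).comp y ∈ 𝓐 k.1 b}
      add_mem' := by
        intro y z hy hz
        show (crd k).comp (y + z) ∈ 𝓐 k.1 b
        rw [ContinuousLinearMap.comp_add]
        exact h𝓐.add_mem _ _ _ hy _ hz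
      zero_mem' := by
        show (crd k).comp 0 ∈ 𝓐 k.1 b
        rw [ContinuousLinearMap.comp_zero]
        exact h𝓐.zero_mem _ _
      smul_mem' := by
        intro c y hy
        show (crd k).comp (c • y) ∈ 𝓐 k.1 b
        rw [ContinuousLinearMap.comp_smul]
        exact h𝓐.smul_mem _ _ _ _ hy }
  have ht : IsClosed (t : Set (W b →L[ℂ] KK W)) :=
    (h𝓐.closed k.1 b).preimage (continuous_const.clm_comp continuous_id)
  refine Hmod_le t ht ?_ hy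
  intro l x hx
  show (crd k).comp ((inc l).comp x) ∈ 𝓐 k.1 b
  by_cases hkl : k = l
  · subst hkl
    have : (crd k).comp ((inc k).comp x) = x := by
      ext1 v
      exact inc_self _ _
    rw [this]
    exact hx
  · have : (crd k).comp ((inc l).comp x) = 0 := by
      ext1 v
      exact inc_ne hkl _
    rw [this]
    exact h𝓐.zero_mem _ _

/-- The column series. -/
def ColSum {b : ℕ} (y : W b →L[ℂ] KK W) : Prop :=
  HasSum (fun k => (inc k).comp ((crd k).comp y)) y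

/-- The partial sums. -/
def PF (F : Finset (ℕ × ℕ)) {b : ℕ} (y : W b →L[ℂ] KK W) : W b →L[ℂ] KK W :=
  ∑ k ∈ F, (inc k).comp ((crd k).comp y)

lemma PF_add (F : Finset (ℕ × ℕ)) {b : ℕ} (y z : W b →L[ℂ] KK W) :
    PF F (y + z) = PF F y + PF F z := by
  unfold PF
  rw [← Finset.sum_add_distrib]
  refine Finset.sum_congr rfl fun k _ => ?_
  rw [ContinuousLinearMap.comp_add, ContinuousLinearMap.comp_add]

lemma PF_smul (F : Finset (ℕ × ℕ)) {b : ℕ} (c : ℂ) (y : W b →L[ℂ] KK W) :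
    PF F (c • y) = c • PF F y := by
  unfold PF
  rw [Finset.smul_sum]
  refine Finset.sum_congr rfl fun k _ => ?_
  rw [ContinuousLinearMap.comp_smul, ContinuousLinearMap.comp_smul]

lemma PF_gen {F : Finset (ℕ × ℕ)} {b : ℕ} (k : ℕ × ℕ) (hk : k ∈ F) (x : W b →L[ℂ] W k.1) :
    PF F ((inc k).comp x) = (inc k).comp x := by
  unfold PF
  rw [Finset.sum_eq_single_of_mem k hk]
  · have : (crd k).comp ((inc k).comp x) = x := by
      ext1 v
      exact inc_self _ _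
    rw [this]
  · intro l _ hl
    have : (crd l).comp ((inc k).comp x) = 0 := by
      ext1 v
      exact inc_ne hl _
    rw [this, ContinuousLinearMap.comp_zero]

lemma PF_span {b : ℕ} (z : W b →L[ℂ] KK W)
    (hz : z ∈ Submodule.span ℂ {y | ∃ k : ℕ × ℕ, ∃ x ∈ 𝓐 k.1 b, y = (inc k).comp x}) :
    ∃ F₀ : Finset (ℕ × ℕ), ∀ F, F₀ ⊆ F → PF F z = z := by
  classical
  induction hz using Submodule.span_induction with
  | mem z hz =>
    obtain ⟨k, x, hx, rfl⟩ := hz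
    exact ⟨{k}, fun F hF => PF_gen k (hF (Finset.mem_singleton_self k)) x⟩
  | zero =>
    refine ⟨∅, fun F _ => ?_⟩
    unfold PF
    simp
  | add z w _ _ hz hw =>
    obtain ⟨F₁, h₁⟩ := hz
    obtain ⟨F₂, h₂⟩ := hw
    refine ⟨F₁ ∪ F₂, fun F hF => ?_⟩
    rw [PF_add, h₁ F (Finset.subset_union_left.trans hF), h₂ F (Finset.subset_union_right.trans hF)]
  | smul c z _ hz =>
    obtain ⟨F₁, h₁⟩ := hz
    refine ⟨F₁, fun F hF => ?_⟩
    rw [PF_smul, h₁ F hF]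

lemma Hmod_sum {b : ℕ} (y : W b →L[ℂ] KK W) (hy : y ∈ Hmod 𝓐 b) : ColSum y := by
  have hy' : y ∈ closure (Submodule.span ℂ
      {y | ∃ k : ℕ × ℕ, ∃ x ∈ 𝓐 k.1 b, y = (inc k).comp x} : Set (W b →L[ℂ] KK W)) := hy
  have h : Tendsto (fun F : Finset (ℕ × ℕ) => PF F y) atTop (𝓝 y) := by
    refine (Metric.tendsto_atTop (β := Finset (ℕ × ℕ)) (α := W b →L[ℂ] KK W)).2 ?_
    intro ε hε
    obtain ⟨z, hz, hyz⟩ := (Metric.mem_closure_iff (α := W b →L[ℂ] KK W)).1 hy' (ε / 2)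
      (by positivity)
    obtain ⟨F₀, hF₀⟩ := PF_span z hz
    refine ⟨F₀, fun F hF => ?_⟩
    have hyz' : ‖y - z‖ < ε / 2 :=
      lt_of_eq_of_lt (dist_eq_norm (E := W b →L[ℂ] KK W) y z).symm hyz
    have h1 : PF F y = PF F (y - z) + z := by
      conv_lhs => rw [← sub_add_cancel y z]
      rw [PF_add, hF₀ F hF]
    have h2 : ‖PF F y - y‖ < ε := by
      have h3 : PF F y - y = PF F (y - z) - (y - z) := by rw [h1]; abel
      rw [h3]
      calc ‖PF F (y - z) - (y - z)‖ ≤ ‖PF F (y - z)‖ + ‖y - z‖ := norm_sub_le (PF F (y - z)) (y - z)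
        _ ≤ ‖y - z‖ + ‖y - z‖ := add_le_add (part_norm F (y - z)) (le_refl _)
        _ < ε := by linarith
    exact lt_of_eq_of_lt (dist_eq_norm (E := W b →L[ℂ] KK W) _ y) h2
  exact h

lemma mem_of_sum {b : ℕ} {f : ℕ × ℕ → (W b →L[ℂ] KK W)} {y : W b →L[ℂ] KK W} (h : HasSum f y)
    (hf : ∀ k, f k ∈ Hmod 𝓐 b) : y ∈ Hmod 𝓐 b := by
  have h1 : Tendsto (fun F : Finset (ℕ × ℕ) => ∑ k ∈ F, f k) atTop (𝓝 y) := h
  exact (Hmod_closed (𝓐 := 𝓐) b).mem_of_tendsto h1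
    (Eventually.of_forall fun F => Submodule.sum_mem _ fun k _ => hf k)

/-- The description of the adjointable operators by their matrices. -/
theorem LA_iff (h𝓐 : Cat 𝓐) (T : KK W →L[ℂ] KK W) :
    T ∈ LA 𝓐 ↔ ∀ j : ℕ × ℕ, ColSum (T.comp (inc j)) ∧ ColSum ((star T).comp (inc j)) ∧
      ∀ k : ℕ × ℕ, (crd k).comp (T.comp (inc j)) ∈ 𝓐 k.1 j.1 ∧
        (crd k).comp ((star T).comp (inc j)) ∈ 𝓐 k.1 j.1 := by
  constructor
  · intro hT j
    have h1 : (inc (W := W) j).comp (ContinuousLinearMap.id ℂ (W j.1)) ∈ Hmod 𝓐 j.1 :=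
      gen_mem j (h𝓐.id_mem j.1)
    rw [ContinuousLinearMap.comp_id] at h1
    have h2 := hT j.1 _ h1
    exact ⟨Hmod_sum _ h2.1, Hmod_sum _ h2.2, fun k => ⟨Hmod_ent h𝓐 _ h2.1 k,
      Hmod_ent h𝓐 _ h2.2 k⟩⟩
  · intro h
    have key : ∀ S : KK W →L[ℂ] KK W, (∀ j : ℕ × ℕ, ColSum (S.comp (inc j)) ∧
        ∀ k : ℕ × ℕ, (crd k).comp (S.comp (inc j)) ∈ 𝓐 k.1 j.1) →
        ∀ b (k : ℕ × ℕ), ∀ x ∈ 𝓐 k.1 b, S.comp ((inc k).comp x) ∈ Hmod 𝓐 b := by
      intro S hS b k x hx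
      have h1 := (hS k).1
      have h2 : HasSum (fun l => ((inc l).comp ((crd l).comp (S.comp (inc k)))).comp x)
          ((S.comp (inc k)).comp x) := by
        let Φ : (W k.1 →L[ℂ] KK W) →L[ℂ] (W b →L[ℂ] KK W) :=
          (ContinuousLinearMap.compL ℂ (W b) (W k.1) (KK W)).flip x
        exact Φ.hasSum h1
      exact mem_of_sum h2 fun l => gen_mem l (h𝓐.comp_mem _ _ _ _ ((hS k).2 l) _ hx)
    exact mem_LA_of (key T fun j => ⟨(h j).1, fun k => ((h j).2.2 k).1⟩)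
      (key (star T) fun j => ⟨(h j).2.1, fun k => ((h j).2.2 k).2⟩)

/-- If the summands are finite dimensional and `𝓐` is everything, all operators are
adjointable. -/
theorem LA_univ [∀ a, FiniteDimensional ℂ (W a)] (h : ∀ a b, 𝓐 a b = univ)
    (T : KK W →L[ℂ] KK W) : T ∈ LA 𝓐 := by
  have key : ∀ b, ∀ y : W b →L[ℂ] KK W, y ∈ Hmod 𝓐 b := by
    intro b y
    let e := stdOrthonormalBasis ℂ (W b)
    have h1 : ∀ (φ : W b →L[ℂ] ℂ) (v : KK W), φ.smulRight v ∈ Hmod 𝓐 b := by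
      intro φ v
      have h2 : HasSum (fun j => inc j (v j)) v := lp.hasSum_single (p := 2) (by simp) v
      have h3 : HasSum (fun j => φ.smulRight (inc j (v j) : KK W)) (φ.smulRight v) :=
        (ContinuousLinearMap.smulRightL ℂ (W b) (KK W) φ).hasSum h2
      refine mem_of_sum h3 fun j => ?_
      have h4 : φ.smulRight (inc j (v j) : KK W) = (inc j).comp (φ.smulRight (v j)) := by
        ext1 w
        show φ w • (inc j (v j) : KK W) = inc j (φ w • v j)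
        rw [map_smul]
      rw [h4]
      exact gen_mem j (by rw [h]; exact mem_univ _)
    have h5 : y = ∑ i, (innerSL ℂ (e i)).smulRight (y (e i)) := by
      ext1 w
      rw [sum_apply]
      conv_lhs => rw [← e.sum_repr' w, map_sum]
      refine Finset.sum_congr rfl fun i _ => ?_
      rw [map_smul]
      rfl
    rw [h5]
    exact Submodule.sum_mem _ fun i _ => h1 _ _
  exact fun b y _ => ⟨key _ _, key _ _⟩

/-- The unitary elements of the algebra. -/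
theorem Inv_one (𝓐 : ∀ a b, Set (W b →L[ℂ] W a)) :
    Inv (LA 𝓐 : Set (KK W →L[ℂ] KK W)) 1 =
      {u | u ∈ LA 𝓐 ∧ star u * u = 1 ∧ u * star u = 1} := by
  ext u
  have h := Set.ext_iff.1 (Bd_one (KK W)) u
  constructor
  · rintro ⟨hu, b, hb, h1, h2, h3, h4⟩
    have h5 : u ∈ unitary (KK W →L[ℂ] KK W) := h.1 ⟨b, h1, h2, h3, h4⟩
    exact ⟨hu, Unitary.star_mul_self_of_mem h5, Unitary.mul_star_self_of_mem h5⟩
  · rintro ⟨hu, h1, h2⟩
    have h5 : u ∈ unitary (KK W →L[ℂ] KK W) := Unitary.mem_iff.2 ⟨h1, h2⟩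
    obtain ⟨b, h6, h7, h8, h9⟩ := h.2 h5
    have h10 : star u = b := left_inv_eq_right_inv h1 h6
    exact ⟨hu, b, h10 ▸ star_mem hu, h6, h7, h8, h9⟩

/-- The invertible elements of the algebra: the inverse is automatically in the algebra. -/
theorem Inv_top (𝓐 : ∀ a b, Set (W b →L[ℂ] W a)) :
    Inv (LA 𝓐 : Set (KK W →L[ℂ] KK W)) ⊤ = {u | u ∈ LA 𝓐 ∧ IsUnit u} := by
  ext u
  constructor
  · rintro ⟨hu, b, hb, h1, h2, h3, h4⟩
    exact ⟨hu, isUnit_iff_exists.2 ⟨b, h1, h2⟩⟩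
  · rintro ⟨hu, h1⟩
    have : IsClosed (LA 𝓐 : Set (KK W →L[ℂ] KK W)) := LA_closed
    have g1 : IsUnit (⟨u, hu⟩ : LA 𝓐) := (StarSubalgebra.coe_isUnit (LA 𝓐)).1 h1
    obtain ⟨y, hxy, hyx⟩ := isUnit_iff_exists.1 g1
    exact ⟨hu, y, y.2, congrArg Subtype.val hxy, congrArg Subtype.val hyx, le_top, le_top⟩

end Meaning

end

end Pool.Agent.KS6_61.EK
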