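import Pool.Agent.KS6_61.EK.Main

/-!
# From the unitary group of a closed *-subalgebra to its invertible elements with bounds
-/

set_option autoImplicit false

namespace Pool.Agent.KS6_61.EK

open Pool.Agent.Helper110.Kuiper Pool.Agent.Y495.KP Filter Topology Set
open scoped ENNReal

noncomputable section

/-- The elements `a` of `S` that have an inverse `b` in `S`, with `‖a‖ ≤ c` and `‖b‖ ≤ c`. -/
def Inv {A : Type} [NormedRing A] (S : Set A) (c : ℝ≥0∞) : Set A :=
  {a | a ∈ S ∧ ∃ b ∈ S, a * b = 1 ∧ b * a = 1 ∧ ‖a‖ₑ ≤ c ∧ ‖b‖ₑ ≤ c}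

variable {A : Type} [CStarAlgebra A] (S : StarSubalgebra ℂ A)

lemma path_mem (hS : IsClosed (S : Set A)) (t : ℝ) {a : A} (ha : a ∈ S) : path t a ∈ S := by
  unfold path
  refine add_mem ?_ ?_
  · rw [← Complex.coe_smul]
    exact SMulMemClass.smul_mem _ ha
  · rw [← Complex.coe_smul]
    exact SMulMemClass.smul_mem _ (pol_mem_of S hS ha)

/-- the unitary part as a unitary element of the subalgebra -/
def PS (hS : IsClosed (S : Set A)) (a : A) : {u : unitary A // (u : A) ∈ S} := by
  classical
  exact if ha : IsUnit a ∧ a ∈ S then ⟨⟨pol a, pol_mem ha.1⟩, pol_mem_of S hS ha.2⟩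
    else ⟨1, one_mem S⟩

lemma PS_coe (hS : IsClosed (S : Set A)) {a : A} (ha : IsUnit a) (ha' : a ∈ S) :
    ((PS S hS a).1 : A) = pol a := by
  unfold PS
  rw [dif_pos ⟨ha, ha'⟩]

lemma PS_cont (hS : IsClosed (S : Set A)) :
    ContinuousOn (PS S hS) {a | IsUnit a ∧ a ∈ S} := by
  have h1 : Topology.IsInducing (fun u : {u : unitary A // (u : A) ∈ S} => (u.1 : A)) :=
    Topology.IsInducing.subtypeVal.comp Topology.IsInducing.subtypeVal
  rw [h1.continuousOn_iff]
  exact (pol_continuousOn.mono fun a ha => ha.1).congr fun a ha => PS_coe S hS ha.1 ha.2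

theorem contr_glS (hS : IsClosed (S : Set A)) {Γ : Type} (v : Γ → unitary A)
    (hv : ∀ g, ∀ a ∈ S, (v g : A) * a * star (v g : A) ∈ S)
    (h : ℝ × {u : unitary A // (u : A) ∈ S} → {u : unitary A // (u : A) ∈ S})
    (hcont : Continuous h) (h0 : ∀ u, h (0, u) = u) (h1 : ∀ u, h (1, u) = ⟨1, one_mem S⟩)
    (he : ∀ t g u, (h (t, ⟨v g * u.1 * (v g)⁻¹, hv g _ u.2⟩)).1 = v g * (h (t, u)).1 * (v g)⁻¹)
    (c : ℝ≥0∞) (hc : 1 ≤ c) :
    EqContr (fun g a => (v g : A) * a * star (v g : A)) (Inv (S : Set A) c) := by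
  have hunit : ∀ a ∈ Inv (S : Set A) c, IsUnit a := fun a ha => by
    obtain ⟨_, b, _, hab, hba, _⟩ := ha
    exact isUnit_iff_exists.2 ⟨b, hab, hba⟩
  let one' : {u : unitary A // (u : A) ∈ S} := ⟨1, one_mem S⟩
  -- the normalised homotopy
  let h' : ℝ × {u : unitary A // (u : A) ∈ S} → unitary A :=
    fun p => ((h (p.1, one')).1)⁻¹ * (h p).1
  have h'mem : ∀ p, (h' p : A) ∈ S := fun p => mul_mem (star_mem (h (p.1, one')).2) (h p).2
  have h'cont : Continuous h' :=
    ((continuous_subtype_val.comp (hcont.comp (continuous_fst.prodMk continuous_const))).inv).mul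
      (continuous_subtype_val.comp hcont)
  have h'0 : ∀ u, h' (0, u) = u.1 := fun u => by
    show ((h (0, one')).1)⁻¹ * (h (0, u)).1 = u.1
    rw [h0, h0]
    show (1 : unitary A)⁻¹ * u.1 = u.1
    rw [inv_one, one_mul]
  have h'1 : ∀ u, h' (1, u) = 1 := fun u => by
    show ((h (1, one')).1)⁻¹ * (h (1, u)).1 = 1
    rw [h1, h1]
    exact inv_mul_cancel _
  have h'one : ∀ t, h' (t, one') = 1 := fun t => inv_mul_cancel _
  have h'e : ∀ t g (u : {u : unitary A // (u : A) ∈ S}),
      h' (t, ⟨v g * u.1 * (v g)⁻¹, hv g _ u.2⟩) = v g * h' (t, u) * (v g)⁻¹ := fun t g u => by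
    show ((h (t, one')).1)⁻¹ * (h (t, ⟨v g * u.1 * (v g)⁻¹, hv g _ u.2⟩)).1 =
      v g * (((h (t, one')).1)⁻¹ * (h (t, u)).1) * (v g)⁻¹
    have h2 := he t g one'
    have h3 : (⟨v g * one'.1 * (v g)⁻¹, hv g _ one'.2⟩ : {u : unitary A // (u : A) ∈ S}) = one' := by
      apply Subtype.ext
      show v g * 1 * (v g)⁻¹ = 1
      rw [mul_one, mul_inv_cancel]
    rw [h3] at h2
    rw [he]
    conv_lhs => rw [h2]
    group
  have hvs : ∀ g, star (v g : A) * (v g : A) = 1 := fun g => Unitary.coe_star_mul_self (v g)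
  have hvs' : ∀ g, (v g : A) * star (v g : A) = 1 := fun g => Unitary.coe_mul_star_self (v g)
  have hnv : ∀ g (a : A), ‖(v g : A) * a * star (v g : A)‖ ≤ ‖a‖ := by
    intro g a
    rcases subsingleton_or_nontrivial A with hA | hA
    · rw [Subsingleton.elim ((v g : A) * a * star (v g : A)) a]
    · calc ‖(v g : A) * a * star (v g : A)‖ ≤ ‖(v g : A)‖ * ‖a‖ * ‖star (v g : A)‖ :=
          (norm_mul_le _ _).trans (mul_le_mul_of_nonneg_right (norm_mul_le _ _) (norm_nonneg _))
        _ = ‖a‖ := by
          rw [norm_star, CStarRing.norm_of_mem_unitary (v g).2, one_mul, mul_one]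
  have hconjmul : ∀ g (a b : A), ((v g : A) * a * star (v g : A)) * ((v g : A) * b * star (v g : A))
      = (v g : A) * (a * b) * star (v g : A) := by
    intro g a b
    calc ((v g : A) * a * star (v g : A)) * ((v g : A) * b * star (v g : A))
        = (v g : A) * a * (star (v g : A) * (v g : A)) * (b * star (v g : A)) := by
          simp only [mul_assoc]
      _ = _ := by rw [hvs, mul_one]; simp only [mul_assoc]
  have hmaps : ∀ g, MapsTo (fun a => (v g : A) * a * star (v g : A)) (Inv (S : Set A) c)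
      (Inv (S : Set A) c) := by
    rintro g a ⟨ha, b, hb, hab, hba, h2, h3⟩
    refine ⟨hv g a ha, (v g : A) * b * star (v g : A), hv g b hb, ?_, ?_, ?_, ?_⟩
    · rw [hconjmul, hab, mul_one, hvs']
    · rw [hconjmul, hba, mul_one, hvs']
    · refine le_trans ?_ h2
      rw [← ofReal_norm, ← ofReal_norm]
      exact ENNReal.ofReal_le_ofReal (hnv g a)
    · refine le_trans ?_ h3
      rw [← ofReal_norm, ← ofReal_norm]
      exact ENNReal.ofReal_le_ofReal (hnv g b)
  have hone : (1 : A) ∈ Inv (S : Set A) c := by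
    have h2 : ‖(1 : A)‖ ≤ max ‖(0 : A)‖ 1 := by
      rcases subsingleton_or_nontrivial A with hA | hA
      · rw [Subsingleton.elim (1 : A) 0]
        exact le_max_left _ _
      · rw [CStarRing.norm_one]
        exact le_max_right _ _
    have h3 := enorm_le_of hc h2 (by rw [enorm_zero]; exact bot_le)
    exact ⟨one_mem S, 1, one_mem S, one_mul 1, one_mul 1, h3, h3⟩
  refine ⟨hmaps, 1, hone, fun g => by
      show (v g : A) * 1 * star (v g : A) = 1
      rw [mul_one, hvs'], fun t a => path t a * star (pol a) *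
    (h' (t, PS S hS a) : A), ?_, ?_, ?_, ?_, ?_, ?_⟩
  · -- continuity
    have hpol : ContinuousOn (fun p : ℝ × A => pol p.2) (Icc 0 1 ×ˢ Inv (S : Set A) c) :=
      pol_continuousOn.comp continuousOn_snd fun p hp => hunit _ hp.2
    have hP : ContinuousOn (fun p : ℝ × A => PS S hS p.2) (Icc 0 1 ×ˢ Inv (S : Set A) c) :=
      (PS_cont S hS).comp continuousOn_snd fun p hp => ⟨hunit _ hp.2, hp.2.1⟩
    have h2 : ContinuousOn (fun p : ℝ × A => path p.1 p.2) (Icc 0 1 ×ˢ Inv (S : Set A) c) := by
      unfold path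
      exact ((continuousOn_const.sub continuousOn_fst).smul continuousOn_snd).add
        (continuousOn_fst.smul hpol)
    have h3 : ContinuousOn (fun p : ℝ × A => (h' (p.1, PS S hS p.2) : A))
        (Icc 0 1 ×ˢ Inv (S : Set A) c) :=
      (continuous_subtype_val.comp h'cont).comp_continuousOn (continuousOn_fst.prodMk hP)
    exact (h2.mul hpol.star).mul h3
  · rintro t ht a ⟨haS, b, hbS, hab, hba, h2, h3⟩
    have ha : IsUnit a := isUnit_iff_exists.2 ⟨b, hab, hba⟩
    obtain ⟨T, hT1, hT2, hT3, hT4⟩ := path_inv hab hba ht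
    have hpathu : IsUnit (path t a) := isUnit_iff_exists.2 ⟨T, hT1, hT2⟩
    have hTS : T ∈ S := by
      have : IsClosed (S : Set A) := hS
      have g1 : IsUnit (⟨path t a, path_mem S hS t haS⟩ : S) := (StarSubalgebra.coe_isUnit S).1 hpathu
      obtain ⟨y, hxy, hyx⟩ := isUnit_iff_exists.1 g1
      have g2 : (y : A) * path t a = 1 := congrArg Subtype.val hyx
      have g3 : (y : A) = T := left_inv_eq_right_inv g2 hT1
      rw [← g3]
      exact y.2
    have hw : star (pol a) * (h' (t, PS S hS a) : A) ∈ unitary A :=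
      mul_mem (Unitary.star_mem (pol_mem ha)) (h' (t, PS S hS a)).2
    have hwS : star (pol a) * (h' (t, PS S hS a) : A) ∈ S :=
      mul_mem (star_mem (pol_mem_of S hS haS)) (h'mem _)
    set w := star (pol a) * (h' (t, PS S hS a) : A) with hwdef
    have hwn : ‖w‖ ≤ 1 := by
      rcases subsingleton_or_nontrivial A with hA | hA
      · rw [Subsingleton.elim w 0, norm_zero]
        exact zero_le_one
      · exact (CStarRing.norm_of_mem_unitary hw).le
    show path t a * star (pol a) * (h' (t, PS S hS a) : A) ∈ Inv (S : Set A) c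
    rw [mul_assoc, ← hwdef]
    refine ⟨mul_mem (path_mem S hS t haS) hwS, star w * T, mul_mem (star_mem hwS) hTS,
      ?_, ?_, ?_, ?_⟩
    · calc path t a * w * (star w * T) = path t a * (w * star w) * T := by
            simp only [mul_assoc]
        _ = 1 := by rw [Unitary.mul_star_self_of_mem hw, mul_one, hT1]
    · calc star w * T * (path t a * w) = star w * (T * path t a) * w := by
            simp only [mul_assoc]
        _ = 1 := by rw [hT2, mul_one, Unitary.star_mul_self_of_mem hw]
    · apply enorm_le_of hc _ h2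
      calc ‖path t a * w‖ ≤ ‖path t a‖ * ‖w‖ := norm_mul_le _ _
        _ ≤ ‖path t a‖ * 1 := mul_le_mul_of_nonneg_left hwn (norm_nonneg _)
        _ ≤ max ‖a‖ 1 := by rw [mul_one]; exact hT3
    · apply enorm_le_of hc _ h3
      calc ‖star w * T‖ ≤ ‖star w‖ * ‖T‖ := norm_mul_le _ _
        _ ≤ 1 * ‖T‖ := mul_le_mul_of_nonneg_right (by rw [norm_star]; exact hwn) (norm_nonneg _)
        _ ≤ max ‖b‖ 1 := by rw [one_mul]; exact hT4
  · intro a ha
    have hu := hunit a ha
    show path 0 a * star (pol a) * (h' (0, PS S hS a) : A) = a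
    rw [h'0, PS_coe S hS hu ha.1, mul_assoc, Unitary.star_mul_self_of_mem (pol_mem hu), mul_one]
    unfold path
    rw [sub_zero, one_smul, zero_smul, add_zero]
  · intro a ha
    have hu := hunit a ha
    show path 1 a * star (pol a) * (h' (1, PS S hS a) : A) = 1
    rw [h'1]
    unfold path
    rw [sub_self, zero_smul, one_smul, zero_add, Unitary.mul_star_self_of_mem (pol_mem hu),
      one_mul]
    rfl
  · intro t ht
    have hp1 : pol (1 : A) = 1 := pol_unitary (1 : unitary A)
    have hP1 : PS S hS (1 : A) = one' :=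
      Subtype.ext (Subtype.ext (by rw [PS_coe S hS isUnit_one (one_mem S), hp1]; rfl))
    show path t 1 * star (pol 1) * (h' (t, PS S hS 1) : A) = 1
    rw [hP1, h'one, hp1, star_one, mul_one]
    unfold path
    rw [hp1, ← add_smul, sub_add_cancel, one_smul, one_mul]
    rfl
  · intro t ht a ha g
    have hu := hunit a ha
    have hu' := hunit _ (hmaps g ha)
    have hpc := pol_conj (v g) hu
    have hPc : PS S hS ((v g : A) * a * star (v g : A)) =
        ⟨v g * (PS S hS a).1 * (v g)⁻¹, hv g _ (PS S hS a).2⟩ :=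
      Subtype.ext (Subtype.ext (by
        rw [PS_coe S hS hu' (hv g a ha.1), hpc]
        rw [← PS_coe S hS hu ha.1]
        rfl))
    have hpath : path t ((v g : A) * a * star (v g : A)) =
        (v g : A) * path t a * star (v g : A) := by
      unfold path
      rw [hpc, mul_add, add_mul, mul_smul_comm, mul_smul_comm, smul_mul_assoc, smul_mul_assoc]
    show path t ((v g : A) * a * star (v g : A)) * star (pol ((v g : A) * a * star (v g : A))) *
      (h' (t, PS S hS ((v g : A) * a * star (v g : A))) : A) =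
      (v g : A) * (path t a * star (pol a) * (h' (t, PS S hS a) : A)) * star (v g : A)
    have hstar : star ((v g : A) * pol a * star (v g : A)) =
        (v g : A) * star (pol a) * star (v g : A) := by
      rw [star_mul, star_mul, star_star, mul_assoc]
    have hval : ((v g * h' (t, PS S hS a) * (v g)⁻¹ : unitary A) : A) =
        (v g : A) * (h' (t, PS S hS a) : A) * star (v g : A) := rfl
    rw [hpath, hpc, hPc, h'e, hval, hstar, hconjmul, hconjmul]

end

end Pool.Agent.KS6_61.EK
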