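import Pool.Agent.KS6_61.EK.Abs

/-!
# The factorization of the identity map and the contraction
-/

set_option autoImplicit false

namespace Pool.Agent.KS6_61.EK

open Pool.Agent.Helper110.Kuiper Pool.Agent.Y495.KP Filter Topology Set
open scoped ENNReal

noncomputable section

variable {W : ℕ → Type} [∀ a, NormedAddCommGroup (W a)] [∀ a, InnerProductSpace ℂ (W a)]
variable [∀ a, CompleteSpace (W a)] {Γ : Type} [Group Γ]
variable {U : Γ →* GG W} {𝔅 : StarSubalgebra ℂ (KK W →L[ℂ] KK W)} (hU : Inva U 𝔅)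

section Main

/-- The combined isometry in the ring. -/
def csB (h𝔅 : GoodAlg 𝔅) (w : Weights (UU 𝔅) (UU 𝔅))
    (hw : ∀ (g : Γ) u τ, w.x τ (actB hU g u) = w.x τ u) (f : Frame (UU 𝔅)) : CB hU :=
  combB hU w hw (fun τ => sOp (f.φ τ) (f.inj τ)) (fun _ => h𝔅.sOp_mem _ _) fun A _ => dg_sOp A _ _

/-- The combined coisometry in the ring. -/
def ctB (h𝔅 : GoodAlg 𝔅) (w : Weights (UU 𝔅) (UU 𝔅))
    (hw : ∀ (g : Γ) u τ, w.x τ (actB hU g u) = w.x τ u) (f : Frame (UU 𝔅)) : CB hU :=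
  combB hU w hw (fun τ => tOp (f.φ τ) (f.inj τ)) (fun _ => h𝔅.tOp_mem _ _) fun A _ => dg_tOp A _ _

theorem exists_goodB (h𝔅 : GoodAlg 𝔅) :
    ∃ (f : Frame (UU 𝔅)) (w : Weights (UU 𝔅) (UU 𝔅)),
      (∀ (g : Γ) u τ, w.x τ (actB hU g u) = w.x τ u) ∧
      ∀ u : UU 𝔅, ‖ct w f.swap u * ((u.1 : KK W →L[ℂ] KK W) * cs w f u)‖ ≤ 1 / 2 := by
  classical
  obtain ⟨f, hf⟩ := exists_frame' h𝔅 (fun u : UU 𝔅 => (u.1 : KK W →L[ℂ] KK W)) (fun u => u.2)
    4⁻¹ (by simp) (by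
      rw [ENNReal.inv_lt_one]
      norm_num)
  obtain ⟨w, hw, hw'⟩ := exists_inv_weights_act (X := UU 𝔅) (Γ := Γ) (actB hU)
    (actB_one hU) (actB_mul hU) (actB_isometry hU) (ENNReal.ofReal (1 / 4)) (by simp)
  refine ⟨f, w, hw, fun u => ?_⟩
  -- a vertex
  have hne : (supp w u).Nonempty := by
    by_contra hcon
    rw [Finset.not_nonempty_iff_eq_empty] at hcon
    have := supp_sq w u
    rw [hcon, Finset.sum_empty] at this
    exact zero_ne_one this
  obtain ⟨ρ, hρ, hρ'⟩ := (supp w u).exists_min_image Finset.card hne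
  have hρsub : ∀ τ ∈ supp w u, ρ ⊆ τ := by
    intro τ hτ
    rcases supp_chain hρ hτ with h | h
    · exact h
    · exact (Finset.eq_of_subset_of_card_le h (hρ' τ hτ)).symm.subset
  obtain ⟨i, hi⟩ := w.nonempty u ρ (mem_supp.1 hρ)
  obtain ⟨g, hA⟩ := hw' u ρ (mem_supp.1 hρ) i hi
  -- the main estimate
  have h1 : ‖ct w f.swap u * ((i.1 : KK W →L[ℂ] KK W) * cs w f u)‖ ≤ 1 / 4 := by
    refine comb_corner w _ _ u _ (1 / 4) (by norm_num) ?_
    intro τ hτ σ hσ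
    have key : ∀ τ σ : Finset (UU 𝔅), τ ⊆ σ → i ∈ τ →
        ‖tOp (f.φ' τ) (f.inj' τ) * ((i.1 : KK W →L[ℂ] KK W) * sOp (f.φ σ) (f.inj σ))‖ ≤
          1 / 4 * ((1 / 2) ^ τ.card * (1 / 2) ^ σ.card) ∧
        ‖tOp (f.φ' σ) (f.inj' σ) * ((i.1 : KK W →L[ℂ] KK W) * sOp (f.φ τ) (f.inj τ))‖ ≤
          1 / 4 * ((1 / 2) ^ σ.card * (1 / 2) ^ τ.card) := by
      intro τ σ hsub hiτ
      obtain ⟨g1, g2⟩ := hf τ σ hsub i hiτ
      rw [← ofReal_norm] at g1 g2
      have hp := half_pow_le (Finset.card_le_card hsub)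
      refine ⟨(toReal_bound g1).trans ?_, (toReal_bound g2).trans ?_⟩
      · exact mul_le_mul_of_nonneg_left hp (by norm_num)
      · rw [mul_comm ((1 / 2 : ℝ) ^ σ.card)]
        exact mul_le_mul_of_nonneg_left hp (by norm_num)
    rcases supp_chain hτ hσ with h | h
    · exact (key τ σ h (hρsub τ hτ hi)).1
    · exact (key σ τ h (hρsub σ hσ hi)).2
  -- translation
  have e2 : dg (U g) * dg (U g)⁻¹ = (1 : KK W →L[ℂ] KK W) := by
    rw [← dg_mul, mul_inv_cancel, dg_one]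
  have h2 : ‖ct w f.swap u * (((actB hU g i).1 : KK W →L[ℂ] KK W) * cs w f u)‖ ≤ 1 / 4 := by
    have : ct w f.swap u * (((actB hU g i).1 : KK W →L[ℂ] KK W) * cs w f u)
        = dg (U g) * (ct w f.swap u * ((i.1 : KK W →L[ℂ] KK W) * cs w f u)) * dg (U g)⁻¹ := by
      rw [actB_coe]
      calc ct w f.swap u * (dg (U g) * (i.1 : KK W →L[ℂ] KK W) * dg (U g)⁻¹ * cs w f u)
          = (ct w f.swap u * dg (U g)) * ((i.1 : KK W →L[ℂ] KK W) * (dg (U g)⁻¹ * cs w f u)) := by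
            simp only [mul_assoc]
        _ = _ := by
            rw [← ct_comm, cs_comm w f u (U g)⁻¹]
            simp only [mul_assoc]
    rw [this, norm_conj]
    exact h1
  have h3 : ‖(u.1 : KK W →L[ℂ] KK W) - ((actB hU g i).1 : KK W →L[ℂ] KK W)‖ ≤ 1 / 4 := by
    rw [edist_dist, ENNReal.ofReal_lt_ofReal_iff (by norm_num), Subtype.dist_eq, Subtype.dist_eq,
      dist_eq_norm] at hA
    exact hA.le
  have h4 : ‖ct w f.swap u * (((u.1 : KK W →L[ℂ] KK W) - ((actB hU g i).1 : KK W →L[ℂ] KK W)) *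
      cs w f u)‖ ≤ 1 / 4 := by
    calc _ ≤ ‖(ct w f.swap u : KK W →L[ℂ] KK W)‖ *
          (‖(u.1 : KK W →L[ℂ] KK W) - ((actB hU g i).1 : KK W →L[ℂ] KK W)‖ *
            ‖(cs w f u : KK W →L[ℂ] KK W)‖) :=
          (norm_mul_le _ _).trans (mul_le_mul_of_nonneg_left (norm_mul_le _ _) (norm_nonneg _))
      _ ≤ 1 * (1 / 4 * 1) := by
          refine mul_le_mul (ct_norm w _ u) (mul_le_mul h3 (cs_norm w _ u) (norm_nonneg _)
            (by norm_num)) (by positivity) zero_le_one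
      _ = 1 / 4 := by norm_num
  have h5 : ct w f.swap u * ((u.1 : KK W →L[ℂ] KK W) * cs w f u)
      = ct w f.swap u * (((u.1 : KK W →L[ℂ] KK W) - ((actB hU g i).1 : KK W →L[ℂ] KK W)) *
          cs w f u) + ct w f.swap u * (((actB hU g i).1 : KK W →L[ℂ] KK W) * cs w f u) := by
    rw [← mul_add, ← add_mul, sub_add_cancel]
  rw [h5]
  refine (norm_add_le _ _).trans ?_
  linarith

theorem id_unipB (h𝔅 : GoodAlg 𝔅) : idB hU ∈ Unip (CB hU) := by
  obtain ⟨f, w, hw, hb⟩ := exists_goodB hU h𝔅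
  let s : CB hU := csB hU h𝔅 w hw f
  let sb : CB hU := ctB hU h𝔅 w hw f
  let s' : CB hU := csB hU h𝔅 w hw f.swap
  let sb' : CB hU := ctB hU h𝔅 w hw f.swap
  have hsmall : ∀ u, ‖((sb' * (idB hU * s)) * (sb * (invCB hU * s')) : CB hU).1 u‖ < 1 := by
    intro u
    have h1 : ((sb' * (idB hU * s)) * (sb * (invCB hU * s')) : CB hU).1 u
        = (ct w f.swap u * ((u.1 : KK W →L[ℂ] KK W) * cs w f u)) *
          (ct w f u * (((u.1⁻¹ : unitary (KK W →L[ℂ] KK W)) : KK W →L[ℂ] KK W) *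
            cs w f.swap u)) := rfl
    rw [h1]
    have h2 : ‖((u.1⁻¹ : unitary (KK W →L[ℂ] KK W)) : KK W →L[ℂ] KK W)‖ ≤ 1 := by
      refine norm_le_one_of_isom ?_
      exact Unitary.coe_star_mul_self _
    have h3 : ‖(ct w f u * (((u.1⁻¹ : unitary (KK W →L[ℂ] KK W)) : KK W →L[ℂ] KK W) *
            cs w f.swap u))‖ ≤ 1 := by
      calc _ ≤ ‖(ct w f u : KK W →L[ℂ] KK W)‖ *
          (‖((u.1⁻¹ : unitary (KK W →L[ℂ] KK W)) : KK W →L[ℂ] KK W)‖ *
            ‖(cs w f.swap u : KK W →L[ℂ] KK W)‖) :=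
            (norm_mul_le _ _).trans (mul_le_mul_of_nonneg_left (norm_mul_le _ _) (norm_nonneg _))
        _ ≤ 1 * (1 * 1) := mul_le_mul (ct_norm w _ u) (mul_le_mul h2 (cs_norm w _ u)
            (norm_nonneg _) zero_le_one) (by positivity) zero_le_one
        _ = 1 := by norm_num
    calc _ ≤ _ := norm_mul_le _ _
      _ ≤ 1 / 2 * 1 := mul_le_mul (hb u) h3 (norm_nonneg _) (by norm_num)
      _ < 1 := by norm_num
  refine factor (u := idB hU) (ui := invCB hU) (s := s) (sb := sb) (s' := s') (sb' := sb')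
    (m := invSubB hU h𝔅 _ hsmall)
    (t0 := cstB hU t0 (h𝔅.sOp_mem _ _) fun A => dg_sOp A _ _)
    (tb0 := cstB hU tb0 (h𝔅.tOp_mem _ _) fun A => dg_tOp A _ _)
    (z := cstB hU zz (h𝔅.sOp_mem _ _) fun A => dg_sOp A _ _)
    (zb := cstB hU zb (h𝔅.tOp_mem _ _) fun A => dg_tOp A _ _)
    (r0 := cstB hU r0 (h𝔅.sOp_mem _ _) fun A => dg_sOp A _ _)
    (rb0 := cstB hU rb0 (h𝔅.tOp_mem _ _) fun A => dg_tOp A _ _)
    (r1 := cstB hU r1 (h𝔅.sOp_mem _ _) fun A => dg_sOp A _ _)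
    (rb1 := cstB hU rb1 (h𝔅.tOp_mem _ _) fun A => dg_tOp A _ _)
    (rhoB hU h𝔅) ?_ ?_ ?_ ?_ ?_ ?_ ?_ ?_ ?_ ?_ ?_ ?_ ?_ ?_ ?_ ?_ ?_ ?_ ?_ ?_ ?_
  · exact CB_ext hU fun u => Unitary.coe_mul_star_self u.1
  · exact CB_ext hU fun u => Unitary.coe_star_mul_self u.1
  · exact CB_ext hU fun u => ct_cs w f u
  · exact CB_ext hU fun u => ct_cs w f.swap u
  · exact CB_ext hU fun u => ct_cs_swap w f u
  · exact CB_ext hU fun u => ct_cs_swap w f.swap u
  · exact invSubB_mul hU h𝔅 _ hsmall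
  · exact CB_ext hU fun u => tb0_t0
  · exact CB_ext hU fun u => zb_zz
  · exact CB_ext hU fun u => tb0_zz
  · exact CB_ext hU fun u => zb_t0
  · exact CB_ext hU fun u => t_z_one
  · exact CB_ext hU fun u => rb0_r0
  · exact CB_ext hU fun u => rb1_r1
  · exact CB_ext hU fun u => rb0_r1
  · exact CB_ext hU fun u => rb1_r0
  · exact CB_ext hU fun u => r_one
  · exact fun a => CB_ext hU fun u => rho_t0 _
  · exact fun a => CB_ext hU fun u => tb0_rho _
  · exact fun a => CB_ext hU fun u => rho_zz _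
  · exact fun a => CB_ext hU fun u => zb_rho _

end Main

section Homotopy

/-- Equivariant homotopy through invertible elements from the identity element. -/
structure HtpyB (c : CB hU) where
  /-- the homotopy -/
  H : ℝ × UU 𝔅 → (KK W →L[ℂ] KK W)
  /-- the inverse of the homotopy -/
  Hi : ℝ × UU 𝔅 → (KK W →L[ℂ] KK W)
  cont : Continuous H
  mem : ∀ p, H p ∈ 𝔅
  mul_inv : ∀ p, H p * Hi p = 1
  inv_mul : ∀ p, Hi p * H p = 1
  zero : ∀ u, H (0, u) = 1
  one : ∀ u, H (1, u) = c.1 u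
  equiv : ∀ t (g : Γ) u, H (t, actB hU g u) = dg (U g) * H (t, u) * dg (U g)⁻¹

lemma htpy_of_unipB {c : CB hU} (hc : c ∈ Unip (CB hU)) : Nonempty (HtpyB hU c) := by
  induction hc using Submonoid.closure_induction with
  | mem x hx =>
    obtain ⟨N, hN, rfl⟩ := hx
    have hN' : ∀ u, N.1 u * N.1 u = 0 := fun u => congrFun (congrArg Subtype.val hN) u
    refine ⟨⟨fun p => 1 + (p.1 : ℂ) • N.1 p.2, fun p => 1 - (p.1 : ℂ) • N.1 p.2, ?_, ?_, ?_, ?_,
      ?_, ?_, ?_⟩⟩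
    · exact continuous_const.add ((Complex.continuous_ofReal.comp continuous_fst).smul
        (N.2.1.comp continuous_snd))
    · intro p
      exact add_mem (one_mem _) (SMulMemClass.smul_mem _ (N.2.2.1 _))
    · intro p
      show (1 + (p.1 : ℂ) • N.1 p.2) * (1 - (p.1 : ℂ) • N.1 p.2) = 1
      have h1 : ((p.1 : ℂ) • N.1 p.2) * ((p.1 : ℂ) • N.1 p.2) = 0 := by
        rw [smul_mul_smul_comm, hN', smul_zero]
      rw [add_mul, one_mul, mul_sub, mul_one, h1]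
      abel
    · intro p
      show (1 - (p.1 : ℂ) • N.1 p.2) * (1 + (p.1 : ℂ) • N.1 p.2) = 1
      have h1 : ((p.1 : ℂ) • N.1 p.2) * ((p.1 : ℂ) • N.1 p.2) = 0 := by
        rw [smul_mul_smul_comm, hN', smul_zero]
      rw [sub_mul, one_mul, mul_add, mul_one, h1]
      abel
    · intro u
      show 1 + ((0 : ℝ) : ℂ) • N.1 u = 1
      rw [Complex.ofReal_zero, zero_smul, add_zero]
    · intro u
      show 1 + ((1 : ℝ) : ℂ) • N.1 u = 1 + N.1 u
      rw [Complex.ofReal_one, one_smul]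
    · intro t g u
      show 1 + (t : ℂ) • N.1 (actB hU g u) = dg (U g) * (1 + (t : ℂ) • N.1 u) * dg (U g)⁻¹
      have e2 : dg (U g) * dg (U g)⁻¹ = (1 : KK W →L[ℂ] KK W) := by
        rw [← dg_mul, mul_inv_cancel, dg_one]
      rw [N.2.2.2 g u, mul_add, add_mul, mul_one, e2, mul_smul_comm, smul_mul_assoc]
  | one =>
    refine ⟨⟨fun _ => 1, fun _ => 1, continuous_const, fun _ => one_mem _, fun _ => one_mul 1,
      fun _ => one_mul 1, fun _ => rfl, fun _ => rfl, fun t g u => ?_⟩⟩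
    show 1 = dg (U g) * 1 * dg (U g)⁻¹
    rw [mul_one, ← dg_mul, mul_inv_cancel, dg_one]
  | mul x y _ _ hx hy =>
    obtain ⟨h⟩ := hx
    obtain ⟨k⟩ := hy
    refine ⟨⟨fun p => h.H p * k.H p, fun p => k.Hi p * h.Hi p, h.cont.mul k.cont,
      fun p => mul_mem (h.mem p) (k.mem p), ?_, ?_, ?_, ?_, ?_⟩⟩
    · intro p
      show h.H p * k.H p * (k.Hi p * h.Hi p) = 1
      rw [mul_assoc, ← mul_assoc (k.H p), k.mul_inv, one_mul, h.mul_inv]
    · intro p
      show k.Hi p * h.Hi p * (h.H p * k.H p) = 1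
      rw [mul_assoc, ← mul_assoc (h.Hi p), h.inv_mul, one_mul, k.inv_mul]
    · intro u
      show h.H (0, u) * k.H (0, u) = 1
      rw [h.zero, k.zero, one_mul]
    · intro u
      show h.H (1, u) * k.H (1, u) = x.1 u * y.1 u
      rw [h.one, k.one]
    · intro t g u
      show h.H (t, actB hU g u) * k.H (t, actB hU g u) =
        dg (U g) * (h.H (t, u) * k.H (t, u)) * dg (U g)⁻¹
      have h1 : dg (U g)⁻¹ * dg (U g) = (1 : KK W →L[ℂ] KK W) := by
        rw [← dg_mul, inv_mul_cancel, dg_one]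
      rw [h.equiv, k.equiv]
      calc dg (U g) * h.H (t, u) * dg (U g)⁻¹ * (dg (U g) * k.H (t, u) * dg (U g)⁻¹)
          = dg (U g) * h.H (t, u) * (dg (U g)⁻¹ * dg (U g)) * (k.H (t, u) * dg (U g)⁻¹) := by
            simp only [mul_assoc]
        _ = dg (U g) * (h.H (t, u) * k.H (t, u)) * dg (U g)⁻¹ := by
            rw [h1, mul_one]; simp only [mul_assoc]

lemma pol_mem_of {A : Type*} [CStarAlgebra A] (S : StarSubalgebra ℂ A)
    (hS : IsClosed (S : Set A)) {a : A} (ha : a ∈ S) : pol a ∈ S := by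
  have : IsClosed (S : Set A) := hS
  unfold pol
  refine mul_mem ha ?_
  exact cfc_mem (𝕜' := ℂ) (s := S) isq (mul_mem (star_mem ha) ha)

lemma pol_memB (h𝔅 : GoodAlg 𝔅) {a : KK W →L[ℂ] KK W} (ha : a ∈ 𝔅) : pol a ∈ 𝔅 :=
  pol_mem_of 𝔅 h𝔅.closed ha

/-- The equivariant contraction of the unitary group of the algebra. -/
theorem kuiperB (h𝔅 : GoodAlg 𝔅) :
    ∃ h : ℝ × UU 𝔅 → UU 𝔅, Continuous h ∧ (∀ u, h (0, u) = u) ∧
      (∀ u, h (1, u) = ⟨1, one_mem 𝔅⟩) ∧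
      ∀ t (g : Γ) u, h (t, actB hU g u) = actB hU g (h (t, u)) := by
  obtain ⟨K⟩ := htpy_of_unipB hU (id_unipB hU h𝔅)
  have hu : ∀ p, IsUnit (K.H p) := fun p => isUnit_iff_exists.2 ⟨K.Hi p, K.mul_inv p, K.inv_mul p⟩
  refine ⟨fun p => ⟨⟨pol (K.H (1 - p.1, p.2)), pol_mem (hu _)⟩, pol_memB h𝔅 (K.mem _)⟩,
    ?_, ?_, ?_, ?_⟩
  · refine Continuous.subtype_mk (Continuous.subtype_mk ?_ _) _
    have h1 : Continuous fun p : ℝ × UU 𝔅 => K.H (1 - p.1, p.2) :=
      K.cont.comp ((continuous_const.sub continuous_fst).prodMk continuous_snd)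
    exact pol_continuousOn.comp_continuous h1 fun p => hu _
  · intro u
    apply Subtype.ext
    apply Subtype.ext
    show pol (K.H (1 - 0, u)) = u.1
    rw [sub_zero, K.one]
    exact pol_unitary u.1
  · intro u
    apply Subtype.ext
    apply Subtype.ext
    show pol (K.H (1 - 1, u)) = 1
    rw [sub_self, K.zero]
    exact pol_unitary 1
  · intro t g u
    apply Subtype.ext
    apply Subtype.ext
    rw [actB_coe]
    show pol (K.H (1 - t, actB hU g u)) = dg (U g) * pol (K.H (1 - t, u)) * dg (U g)⁻¹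
    rw [K.equiv, ← star_dg]
    exact pol_conj (DG (U g)) (hu _)

end Homotopy

end

end Pool.Agent.KS6_61.EK
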