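import Pool.Agent.KS6_61.EK.Gl2

/-!
# The algebra of adjointable operators of the standard module
-/

set_option autoImplicit false

namespace Pool.Agent.KS6_61.EK

open Pool.Agent.Helper110.Kuiper Pool.Agent.Y495.KP Filter Topology Set
open scoped ENNReal

noncomputable section

variable {W : ℕ → Type} [∀ a, NormedAddCommGroup (W a)] [∀ a, InnerProductSpace ℂ (W a)]

/-- The inclusion of the summand number `j`. -/
def inc (j : ℕ × ℕ) : W j.1 →L[ℂ] KK W :=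
  lp.singleContinuousLinearMap ℂ (fun j : ℕ × ℕ => W j.1) 2 j

lemma inc_apply (j : ℕ × ℕ) (v : W j.1) : inc j v = lp.single 2 j v := rfl

/-- The coordinate number `k`. -/
def crd (k : ℕ × ℕ) : KK W →L[ℂ] W k.1 := lp.evalCLM ℂ (fun j : ℕ × ℕ => W j.1) 2 k

lemma crd_apply (k : ℕ × ℕ) (v : KK W) : crd k v = v k := rfl

lemma inc_self (j : ℕ × ℕ) (v : W j.1) : (inc j v : KK W) j = v := by
  rw [inc_apply]
  exact lp.single_apply_self _ _ _

lemma inc_ne {j k : ℕ × ℕ} (h : k ≠ j) (v : W j.1) : (inc j v : KK W) k = 0 := by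
  rw [inc_apply]
  exact lp.single_apply_ne _ _ _ h

/-- The standard module: the closed linear span of the operators `inc k ∘ x` with `x ∈ 𝓐`. -/
def Hmod (𝓐 : ∀ a b, Set (W b →L[ℂ] W a)) (b : ℕ) : Submodule ℂ (W b →L[ℂ] KK W) :=
  (Submodule.span ℂ {y | ∃ k : ℕ × ℕ, ∃ x ∈ 𝓐 k.1 b, y = (inc k).comp x}).topologicalClosure

variable {𝓐 : ∀ a b, Set (W b →L[ℂ] W a)}

lemma Hmod_closed (b : ℕ) : IsClosed (Hmod 𝓐 b : Set (W b →L[ℂ] KK W)) :=
  Submodule.isClosed_topologicalClosure _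

lemma gen_mem {b : ℕ} (k : ℕ × ℕ) {x : W b →L[ℂ] W k.1} (hx : x ∈ 𝓐 k.1 b) :
    (inc k).comp x ∈ Hmod 𝓐 b :=
  Submodule.le_topologicalClosure _ (Submodule.subset_span ⟨k, x, hx, rfl⟩)

lemma Hmod_le {b : ℕ} (t : Submodule ℂ (W b →L[ℂ] KK W)) (ht : IsClosed (t : Set (W b →L[ℂ] KK W)))
    (h : ∀ (k : ℕ × ℕ), ∀ x ∈ 𝓐 k.1 b, (inc k).comp x ∈ t) : Hmod 𝓐 b ≤ t := by
  refine Submodule.topologicalClosure_minimal _ (Submodule.span_le.2 ?_) ht
  rintro _ ⟨k, x, hx, rfl⟩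
  exact h k x hx

lemma Hmod_map {b b' : ℕ} (F : (W b →L[ℂ] KK W) →L[ℂ] (W b' →L[ℂ] KK W))
    (hF : ∀ (k : ℕ × ℕ), ∀ x ∈ 𝓐 k.1 b, F ((inc k).comp x) ∈ Hmod 𝓐 b') :
    ∀ y ∈ Hmod 𝓐 b, F y ∈ Hmod 𝓐 b' := by
  have h : Hmod 𝓐 b ≤ (Hmod 𝓐 b').comap (F : (W b →L[ℂ] KK W) →ₗ[ℂ] (W b' →L[ℂ] KK W)) :=
    Hmod_le _ ((Hmod_closed b').preimage F.continuous) hF
  exact h

/-- Left composition. -/
lemma Hmod_comp {b : ℕ} (T : KK W →L[ℂ] KK W)
    (hF : ∀ (k : ℕ × ℕ), ∀ x ∈ 𝓐 k.1 b, T.comp ((inc k).comp x) ∈ Hmod 𝓐 b) :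
    ∀ y ∈ Hmod 𝓐 b, T.comp y ∈ Hmod 𝓐 b :=
  Hmod_map (ContinuousLinearMap.compL ℂ (W b) (KK W) (KK W) T) hF

variable [∀ a, CompleteSpace (W a)]

/-- The adjointable operators of the standard module. -/
def LA (𝓐 : ∀ a b, Set (W b →L[ℂ] W a)) : StarSubalgebra ℂ (KK W →L[ℂ] KK W) where
  carrier := {T | ∀ b, ∀ y ∈ Hmod 𝓐 b, T.comp y ∈ Hmod 𝓐 b ∧ (star T).comp y ∈ Hmod 𝓐 b}
  mul_mem' := by
    intro S T hS hT b y hy
    refine ⟨(hS b _ (hT b y hy).1).1, ?_⟩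
    rw [star_mul]
    exact (hT b _ (hS b y hy).2).2
  one_mem' := by
    intro b y hy
    rw [star_one]
    exact ⟨hy, hy⟩
  add_mem' := by
    intro S T hS hT b y hy
    rw [star_add, ContinuousLinearMap.add_comp, ContinuousLinearMap.add_comp]
    exact ⟨add_mem (hS b y hy).1 (hT b y hy).1, add_mem (hS b y hy).2 (hT b y hy).2⟩
  zero_mem' := by
    intro b y hy
    rw [star_zero, ContinuousLinearMap.zero_comp]
    exact ⟨zero_mem _, zero_mem _⟩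
  algebraMap_mem' := by
    intro r b y hy
    rw [Algebra.algebraMap_eq_smul_one, star_smul, star_one, ContinuousLinearMap.smul_comp,
      ContinuousLinearMap.smul_comp]
    exact ⟨Submodule.smul_mem _ _ hy, Submodule.smul_mem _ _ hy⟩
  star_mem' := by
    intro T hT b y hy
    rw [star_star]
    exact (hT b y hy).symm

lemma mem_LA {T : KK W →L[ℂ] KK W} :
    T ∈ LA 𝓐 ↔ ∀ b, ∀ y ∈ Hmod 𝓐 b, T.comp y ∈ Hmod 𝓐 b ∧ (star T).comp y ∈ Hmod 𝓐 b := Iff.rfl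

lemma LA_closed : IsClosed (LA 𝓐 : Set (KK W →L[ℂ] KK W)) := by
  have : (LA 𝓐 : Set (KK W →L[ℂ] KK W)) = ⋂ (b : ℕ), ⋂ y ∈ Hmod 𝓐 b,
      {T | T.comp y ∈ Hmod 𝓐 b ∧ (star T).comp y ∈ Hmod 𝓐 b} := by
    ext T
    simp only [SetLike.mem_coe, mem_LA, mem_iInter, mem_ofPred_eq]
  rw [this]
  refine isClosed_iInter fun b => isClosed_iInter fun y => isClosed_iInter fun _ => ?_
  refine IsClosed.inter ?_ ?_
  · exact (Hmod_closed b).preimage (continuous_id.clm_comp continuous_const)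
  · exact (Hmod_closed b).preimage (continuous_star.clm_comp continuous_const)

lemma mem_LA_of {T : KK W →L[ℂ] KK W}
    (h1 : ∀ b (k : ℕ × ℕ), ∀ x ∈ 𝓐 k.1 b, T.comp ((inc k).comp x) ∈ Hmod 𝓐 b)
    (h2 : ∀ b (k : ℕ × ℕ), ∀ x ∈ 𝓐 k.1 b, (star T).comp ((inc k).comp x) ∈ Hmod 𝓐 b) :
    T ∈ LA 𝓐 := fun b y hy => ⟨Hmod_comp T (h1 b) y hy, Hmod_comp _ (h2 b) y hy⟩

lemma sOp_inc (φ : ℕ → ℕ → ℕ) (h : ∀ a, Function.Injective (φ a)) (a n : ℕ) :
    (sOp φ h).comp (inc (W := W) (a, n)) = inc (W := W) (a, φ a n) := by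
  ext1 v
  apply lp.ext
  funext j
  show (sOp φ h (inc (a, n) v)) j = (inc (W := W) (a, φ a n) v) j
  by_cases hj : j ∈ Set.range (idx φ)
  · obtain ⟨⟨b, m⟩, rfl⟩ := hj
    show (sOp φ h (inc (a, n) v)) (b, φ b m) = (inc (W := W) (a, φ a n) v) (b, φ b m)
    rw [sOp_apply]
    by_cases hb : (b, m) = (a, n)
    · obtain ⟨rfl, rfl⟩ := Prod.mk.inj hb
      rw [inc_self]
      exact (inc_self (W := W) (b, φ b m) v).symm
    · rw [inc_ne hb]
      refine (inc_ne (W := W) (j := (a, φ a n)) (k := (b, φ b m)) ?_ v).symm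
      intro hcon
      obtain ⟨rfl, h2⟩ := Prod.mk.inj hcon
      exact hb (by rw [h b h2])
  · rw [sOp_zero _ _ _ _ hj]
    refine (inc_ne (W := W) (j := (a, φ a n)) (k := j) ?_ v).symm
    rintro rfl
    exact hj ⟨(a, n), rfl⟩

lemma tOp_inc (φ : ℕ → ℕ → ℕ) (h : ∀ a, Function.Injective (φ a)) (a n : ℕ) :
    (tOp φ h).comp (inc (W := W) (a, φ a n)) = inc (W := W) (a, n) := by
  rw [← sOp_inc φ h a n, ← ContinuousLinearMap.comp_assoc]
  have : (tOp φ h).comp (sOp φ h) = (1 : KK W →L[ℂ] KK W) := tOp_sOp φ h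
  rw [this]
  rfl

lemma tOp_inc_zero (φ : ℕ → ℕ → ℕ) (h : ∀ a, Function.Injective (φ a)) (a m : ℕ)
    (hm : m ∉ Set.range (φ a)) : (tOp φ h).comp (inc (W := W) (a, m)) = 0 := by
  ext1 v
  apply lp.ext
  funext j
  show (inc (W := W) (a, m) v) (j.1, φ j.1 j.2) = 0
  refine inc_ne (W := W) ?_ v
  intro hcon
  obtain ⟨h1, h2⟩ := Prod.mk.inj hcon
  apply hm
  rw [← h2, ← h1]
  exact ⟨j.2, rfl⟩

lemma sOp_mem_LA (φ : ℕ → ℕ → ℕ) (h : ∀ a, Function.Injective (φ a)) : sOp φ h ∈ LA 𝓐 := by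
  refine mem_LA_of ?_ ?_
  · rintro b ⟨a, n⟩ x hx
    rw [← ContinuousLinearMap.comp_assoc, sOp_inc]
    exact gen_mem (𝓐 := 𝓐) (a, φ a n) hx
  · rintro b ⟨a, m⟩ x hx
    rw [adjoint_sOp, ← ContinuousLinearMap.comp_assoc]
    by_cases hm : m ∈ Set.range (φ a)
    · obtain ⟨n, rfl⟩ := hm
      rw [tOp_inc]
      exact gen_mem (𝓐 := 𝓐) (a, n) hx
    · rw [tOp_inc_zero φ h a m hm, ContinuousLinearMap.zero_comp]
      exact zero_mem _

/-- The isometry onto the slice number `l`. -/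
def tS (l : ℕ) : KK W →L[ℂ] KK W := sOp (fun _ => Nat.pair l) fun _ => pair_inj l

lemma star_tS (l : ℕ) : star (tS l : KK W →L[ℂ] KK W) = slc l := adjoint_sOp _ _

lemma slc_tS (l : ℕ) (v : KK W) : slc l (tS l v) = v := by
  have h : (slc l : KK W →L[ℂ] KK W) * tS l = 1 := tOp_sOp _ _
  exact congrArg (fun T : KK W →L[ℂ] KK W => T v) h

lemma slc_tS_ne {k l : ℕ} (hkl : k ≠ l) (v : KK W) : slc k (tS l v) = 0 := by
  have h : (slc k : KK W →L[ℂ] KK W) * tS l = 0 := tOp_sOp_zero _ _ _ _ (by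
    rw [Set.disjoint_left]
    rintro _ ⟨⟨a, n⟩, rfl⟩ ⟨⟨b, m⟩, h⟩
    simp only [idx, Prod.mk.injEq, Nat.pair_eq_pair] at h
    exact hkl h.2.1.symm)
  exact congrArg (fun T : KK W →L[ℂ] KK W => T v) h

lemma rho_tS (x : KK W →L[ℂ] KK W) (l : ℕ) : rho x * tS l = tS l * x := by
  ext1 v
  apply ext_pair
  intro a k n
  show (rhoOp x (tS l v)) _ = (tS l (x v)) _
  rw [rhoOp_apply]
  have h1 : ∀ w : KK W, (tS l w) (a, Nat.pair k n) = (slc k (tS l w)) (a, n) := fun w => rfl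
  rw [h1]
  by_cases hkl : k = l
  · subst hkl
    rw [slc_tS, slc_tS]
  · rw [slc_tS_ne hkl, slc_tS_ne hkl, map_zero]

lemma slc_rho (x : KK W →L[ℂ] KK W) (k : ℕ) : slc k * rho x = x * slc k := by
  ext1 v
  exact slc_rhoOp x v k

lemma star_rho (x : KK W →L[ℂ] KK W) : star (rho x) = rho (star x) := by
  have h1 : ∀ k, slc k * star (rho x) = star x * slc k := by
    intro k
    have h2 := congrArg star (rho_tS x k)
    rw [star_mul, star_mul, star_tS] at h2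
    exact h2
  ext1 v
  apply ext_pair
  intro a k n
  have h3 : (slc k * star (rho x) : KK W →L[ℂ] KK W) = slc k * rho (star x) := by
    rw [h1, slc_rho]
  exact congrArg (fun T : KK W →L[ℂ] KK W => (T v) (a, n)) h3

lemma tS_inc (a l m : ℕ) :
    (tS l).comp (inc (W := W) (a, m)) = inc (W := W) (a, Nat.pair l m) := sOp_inc _ _ a m

lemma rho_mem_half {x : KK W →L[ℂ] KK W} (hx : x ∈ LA 𝓐) (b : ℕ) (k : ℕ × ℕ)
    (z : W b →L[ℂ] W k.1) (hz : z ∈ 𝓐 k.1 b) : (rho x).comp ((inc k).comp z) ∈ Hmod 𝓐 b := by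
  obtain ⟨a, p⟩ := k
  have hp : p = Nat.pair (Nat.unpair p).1 (Nat.unpair p).2 := (Nat.pair_unpair p).symm
  generalize (Nat.unpair p).1 = l at hp
  generalize (Nat.unpair p).2 = m at hp
  subst hp
  have h1 : (rho x).comp ((inc (W := W) (a, Nat.pair l m)).comp z) =
      (tS l).comp (x.comp ((inc (W := W) (a, m)).comp z)) := by
    rw [← tS_inc]
    exact congrArg (fun T : KK W →L[ℂ] KK W => T.comp ((inc (W := W) (a, m)).comp z)) (rho_tS x l)
  rw [h1]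
  have h2 : x.comp ((inc (W := W) (a, m)).comp z) ∈ Hmod 𝓐 b :=
    (hx b _ (gen_mem (𝓐 := 𝓐) (a, m) hz)).1
  exact ((sOp_mem_LA (𝓐 := 𝓐) _ _) b _ h2).1

lemma rho_mem_LA {x : KK W →L[ℂ] KK W} (hx : x ∈ LA 𝓐) : rho x ∈ LA 𝓐 := by
  refine mem_LA_of (fun b k z hz => rho_mem_half hx b k z hz) fun b k z hz => ?_
  rw [star_rho]
  exact rho_mem_half (star_mem hx) b k z hz

lemma norm_crd_le (k : ℕ × ℕ) : ‖(crd k : KK W →L[ℂ] W k.1)‖ ≤ 1 := by
  refine ContinuousLinearMap.opNorm_le_bound _ zero_le_one fun v => ?_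
  rw [one_mul]
  exact lp.norm_apply_le_norm (by norm_num) v k

lemma Hmod_vanish {b : ℕ} (a : ℕ) (y : W b →L[ℂ] KK W) (hy : y ∈ Hmod 𝓐 b) :
    Tendsto (fun n : ℕ => ‖(crd (a, n)).comp y‖) atTop (𝓝 0) := by
  have h1 : ∀ z ∈ Submodule.span ℂ {y | ∃ k : ℕ × ℕ, ∃ x ∈ 𝓐 k.1 b, y = (inc k).comp x},
      Tendsto (fun n : ℕ => ‖(crd (a, n)).comp z‖) atTop (𝓝 0) := by
    intro z hz
    induction hz using Submodule.span_induction with
    | mem z hz =>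
      obtain ⟨k, x, hx, rfl⟩ := hz
      refine tendsto_const_nhds.congr' ?_
      filter_upwards [eventually_gt_atTop k.2] with n hn
      have : (crd (a, n)).comp ((inc k).comp x) = 0 := by
        ext1 v
        show (inc (W := W) k (x v)) (a, n) = 0
        refine inc_ne ?_ _
        rintro rfl
        exact lt_irrefl _ hn
      rw [this, norm_zero]
    | zero =>
      refine tendsto_const_nhds.congr fun n => ?_
      rw [ContinuousLinearMap.comp_zero, norm_zero]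
    | add z w _ _ hz hw =>
      refine squeeze_zero (fun _ => norm_nonneg _) (fun n => ?_) (by simpa using hz.add hw)
      rw [ContinuousLinearMap.comp_add]
      exact norm_add_le _ _
    | smul c z _ hz =>
      have h2 := hz.const_mul ‖c‖
      rw [mul_zero] at h2
      refine h2.congr fun n => ?_
      rw [ContinuousLinearMap.comp_smul, norm_smul]
  rw [Metric.tendsto_atTop]
  intro ε hε
  have hy' : y ∈ closure (Submodule.span ℂ
      {y | ∃ k : ℕ × ℕ, ∃ x ∈ 𝓐 k.1 b, y = (inc k).comp x} : Set (W b →L[ℂ] KK W)) := hy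
  obtain ⟨z, hz, hyz⟩ := (Metric.mem_closure_iff (α := W b →L[ℂ] KK W)).1 hy' (ε / 2) (by positivity)
  obtain ⟨N, hN⟩ := Metric.tendsto_atTop.1 (h1 z hz) (ε / 2) (by positivity)
  refine ⟨N, fun n hn => ?_⟩
  have h2 := hN n hn
  rw [dist_zero_right, norm_norm] at h2 ⊢
  have h3 : (crd (a, n)).comp y = (crd (a, n)).comp (y - z) + (crd (a, n)).comp z := by
    rw [← ContinuousLinearMap.comp_add, sub_add_cancel]
  rw [h3]
  have h4 : ‖(crd (W := W) (a, n)).comp (y - z)‖ ≤ ‖y - z‖ := by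
    refine (ContinuousLinearMap.opNorm_comp_le _ _).trans ?_
    calc ‖(crd (W := W) (a, n))‖ * ‖y - z‖ ≤ 1 * ‖y - z‖ :=
          mul_le_mul_of_nonneg_right (norm_crd_le _) (norm_nonneg (y - z))
      _ = ‖y - z‖ := one_mul _
  have hyz' : ‖y - z‖ < ε / 2 := lt_of_eq_of_lt (dist_eq_norm (E := W b →L[ℂ] KK W) y z).symm hyz
  calc _ ≤ _ := norm_add_le _ _
    _ < ε := by linarith

theorem good_LA (hid : ∀ a, ContinuousLinearMap.id ℂ (W a) ∈ 𝓐 a a) : GoodAlg (LA 𝓐) where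
  closed := LA_closed
  sOp_mem φ h := sOp_mem_LA φ h
  rho_mem x hx := rho_mem_LA hx
  vanish T hT j a := by
    have h1 : (inc (W := W) j).comp (ContinuousLinearMap.id ℂ (W j.1)) ∈ Hmod 𝓐 j.1 :=
      gen_mem j (hid j.1)
    rw [ContinuousLinearMap.comp_id] at h1
    have h2 := Hmod_vanish (𝓐 := 𝓐) a _ (hT _ _ h1).1
    have h4 : Tendsto (fun n : ℕ => ENNReal.ofReal ‖(crd (a, n)).comp (T.comp (inc j))‖) atTop
        (𝓝 0) := by
      have := ENNReal.tendsto_ofReal h2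
      rwa [ENNReal.ofReal_zero] at this
    refine h4.congr fun n => ?_
    rw [ent, ofReal_norm]
    rfl

end

end Pool.Agent.KS6_61.EK
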